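import Pool.Agent.H6.TPU.SegR

/-!
# Kernel computation: elimination on the first rows for `r = 1`, thirty-two columns
-/

set_option autoImplicit false

namespace Pool.Agent.H6.TPU

theorem ra1 : segR 1 32 0 241 = true := by decide +kernel

theorem rb1 : segR 1 32 210 171 = true := by decide +kernel

theorem rc1 : segR 1 32 350 152 = true := by decide +kernel

/-- the numerical condition -/
theorem cnd32 : ∀ K, K < 33 → 1 ≤ K →
    2 * K * (K + 1) * (472 + K * K) * (K - 1) ^ 472 ≤ K ^ 472 := by decide +kernel

end Pool.Agent.H6.TPU
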