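import Pool.Agent.H6.TPU.SegR

/-!
# Kernel computation: elimination on the first rows for `2 ≤ r ≤ 6`, twenty-four columns
-/

set_option autoImplicit false

namespace Pool.Agent.H6.TPU

theorem rr2 : segR 2 24 0 349 = true := by decide +kernel

theorem rr3 : segR 3 24 0 349 = true := by decide +kernel

theorem rr4 : segR 4 24 0 349 = true := by decide +kernel

theorem rr5 : segR 5 24 0 349 = true := by decide +kernel

theorem rr6 : segR 6 24 0 349 = true := by decide +kernel

/-- the numerical condition -/
theorem cnd24 : ∀ K, K < 25 → 1 ≤ K →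
    2 * K * (K + 1) * (327 + K * K) * (K - 1) ^ 327 ≤ K ^ 327 := by decide +kernel

end Pool.Agent.H6.TPU
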