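import Pool.Agent.H6.TPU.SegP

/-!
# Kernel computation: elimination over the polynomials in `s = r - 1`, sixteen columns, rows 52 to 110
-/

set_option autoImplicit false

namespace Pool.Agent.H6.TPU

theorem seg2 : segP 9439 4712 121 16 52 59 = true := by decide +kernel

end Pool.Agent.H6.TPU
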