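import Pool.Agent.H6.TPU.SndSQ
import Pool.Agent.H6.TPU.RS1
import Pool.Agent.H6.TPU.RS2
import Pool.Agent.H6.TPU.RS3
import Pool.Agent.H6.TPU.RS4
import Pool.Agent.H6.TPU.RS5
import Pool.Agent.H6.TPU.RR1
import Pool.Agent.H6.TPU.RR2

/-!
# The first columns: sixteen for every `r`, twenty-four for `r ≤ 6`, thirty-two for `r = 1`
-/

set_option autoImplicit false

namespace Pool.Agent.H6.TPU

open Pool.Agent.H48.TP Pool.Agent.H37.TPC

/-- the numerical condition, sixteen columns -/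
theorem cnd16 : ∀ K, K < 17 → 1 ≤ K →
    2 * K * (K + 1) * (193 + K * K) * (K - 1) ^ 193 ≤ K ^ 193 := by decide +kernel

/-- a segment, with simple side conditions -/
theorem seg_ini' (B h D C s0 f : ℕ) (hC : 1 ≤ C) (hD : 1 ≤ D) (h20 : 20 ≤ h)
    (hB : B = 2 * h + 15) (hDB : 2 * (D * D) < 2 ^ 15)
    (hbig : (C + 2 + 2 * (s0 + f)) * D < 2 ^ 20)
    (hrun : segP B h D C s0 f = true)
    (r : ℕ) (hr : 1 ≤ r) (E : ℕ → ℕ → ℤ) (hE : IsE r E) (K n : ℕ) (hK : K ≤ C) (hn : s0 ≤ n)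
    (hn2 : n + K ≤ s0 + f) : 0 < ini (shE E) K n := by
  refine seg_ini B h D C s0 f hC hD (by omega) ?_ ?_ hrun r hr E hE K n hK hn hn2
  · rwa [show B - 2 * h = 15 by omega]
  · exact lt_of_lt_of_le hbig (Nat.pow_le_pow_right (by norm_num) (by omega))

/-- **Sixteen columns, every `r`.** -/
theorem first16 (r : ℕ) (hr : 1 ≤ r) (E : ℕ → ℕ → ℤ) (hE : IsE r E) :
    (∀ m : ℕ, ∀ f g : Fin m → ℕ, StrictMono f → StrictMono g → (∀ j, g j < 16) →
      0 ≤ Matrix.det (Matrix.of fun i j => E (f i) (g j))) ∧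
    (∀ n K : ℕ, K ≤ 16 → 0 < Matrix.det (Matrix.of fun i j : Fin K => E (n + i + 1) j)) := by
  refine first_of_ini 16 193 r hr E hE (fun K h1 h2 => cnd16 K (Nat.lt_succ_of_le h2) h1) ?_
  intro K n hK hn
  rcases Nat.lt_or_ge n 52 with h | h
  · exact seg_ini' 5645 2815 121 16 0 67 (by norm_num) (by norm_num) (by norm_num) (by norm_num)
      (by norm_num) (by norm_num) seg1 r hr E hE K n hK (by omega) (by omega)
  rcases Nat.lt_or_ge n 96 with h | h
  · exact seg_ini' 9439 4712 121 16 52 59 (by norm_num) (by norm_num) (by norm_num) (by norm_num)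
      (by norm_num) (by norm_num) seg2 r hr E hE K n hK (by omega) (by omega)
  rcases Nat.lt_or_ge n 132 with h | h
  · exact seg_ini' 12625 6305 121 16 96 51 (by norm_num) (by norm_num) (by norm_num) (by norm_num)
      (by norm_num) (by norm_num) seg3 r hr E hE K n hK (by omega) (by omega)
  rcases Nat.lt_or_ge n 164 with h | h
  · exact seg_ini' 15457 7721 121 16 132 47 (by norm_num) (by norm_num) (by norm_num)
      (by norm_num) (by norm_num) (by norm_num) seg4 r hr E hE K n hK (by omega) (by omega)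
  · exact seg_ini' 17935 8960 121 16 164 43 (by norm_num) (by norm_num) (by norm_num)
      (by norm_num) (by norm_num) (by norm_num) seg5 r hr E hE K n hK (by omega) (by omega)

/-- a segment for one `r` -/
theorem segR_ini (r C s0 f : ℕ) (hr : 1 ≤ r) (hC : 1 ≤ C) (hrun : segR r C s0 f = true)
    (E : ℕ → ℕ → ℤ) (hE : IsE r E) (K n : ℕ) (hK : K ≤ C) (hn : s0 ≤ n)
    (hn2 : n + K ≤ s0 + f) : 0 < ini (shE E) K n :=
  segQ_ini r C s0 f hr hC (by rw [← segR_eq]; exact hrun) E hE K n hK hn hn2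

/-- **Twenty-four columns, `2 ≤ r ≤ 6`.** -/
theorem first24 (r : ℕ) (hr : 2 ≤ r) (hr6 : r ≤ 6) (E : ℕ → ℕ → ℤ) (hE : IsE r E) :
    (∀ m : ℕ, ∀ f g : Fin m → ℕ, StrictMono f → StrictMono g → (∀ j, g j < 24) →
      0 ≤ Matrix.det (Matrix.of fun i j => E (f i) (g j))) ∧
    (∀ n K : ℕ, K ≤ 24 → 0 < Matrix.det (Matrix.of fun i j : Fin K => E (n + i + 1) j)) := by
  have hrun : segR r 24 0 349 = true := by
    interval_cases r
    · exact rr2
    · exact rr3
    · exact rr4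
    · exact rr5
    · exact rr6
  refine first_of_ini 24 327 r (by omega) E hE (fun K h1 h2 => cnd24 K (Nat.lt_succ_of_le h2) h1) ?_
  intro K n hK hn
  exact segR_ini r 24 0 349 (by omega) (by norm_num) hrun E hE K n hK (by omega) (by omega)

/-- **Thirty-two columns, `r = 1`.** -/
theorem first32 (E : ℕ → ℕ → ℤ) (hE : IsE 1 E) :
    (∀ m : ℕ, ∀ f g : Fin m → ℕ, StrictMono f → StrictMono g → (∀ j, g j < 32) →
      0 ≤ Matrix.det (Matrix.of fun i j => E (f i) (g j))) ∧
    (∀ n K : ℕ, K ≤ 32 → 0 < Matrix.det (Matrix.of fun i j : Fin K => E (n + i + 1) j)) := by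
  refine first_of_ini 32 472 1 le_rfl E hE (fun K h1 h2 => cnd32 K (Nat.lt_succ_of_le h2) h1) ?_
  intro K n hK hn
  rcases Nat.lt_or_ge n 210 with h | h
  · exact segR_ini 1 32 0 241 le_rfl (by norm_num) ra1 E hE K n hK (by omega) (by omega)
  rcases Nat.lt_or_ge n 350 with h | h
  · exact segR_ini 1 32 210 171 le_rfl (by norm_num) rb1 E hE K n hK (by omega) (by omega)
  · exact segR_ini 1 32 350 152 le_rfl (by norm_num) rc1 E hE K n hK (by omega) (by omega)

end Pool.Agent.H6.TPU
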