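import Pool.Agent.H6.TPU.Ode
import Pool.Agent.H48.TP.Fin

/-!
# Deep rows, uniformly in `r`
-/

set_option autoImplicit false

namespace Pool.Agent.H6.TPU

open PowerSeries Finset Pool.Agent.H48.TP Pool.Agent.H37.TPC

/-- the key estimate: the perturbation cannot reach the main term -/
theorem keyU (r Q a K n : ℕ) (hr : 1 ≤ r) (c : ℕ → ℝ) (ψ : ℕ → PowerSeries ℝ) (D : Dat r Q c ψ)
    (hG : ∀ y l, 1 ≤ y → (r : ℝ) ^ l * c y ≤ c (y + l)) (hQ : a + K ≤ Q)
    (H : 2 * (K : ℝ) * (K + 1) * (n + (K : ℝ) * Q) * (((Q : ℝ) - 1) / Q) ^ n ≤ 1)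
    (t : ℝ) (ht0 : 0 ≤ t) (ht1 : t ≤ 1) (p : Fin K → ℝ) (hp : p ≠ 0)
    (hnull : ∀ j : Fin K, ∑ i : Fin K, p i * (((a + 1 + j : ℕ) : ℝ) ^ (i : ℕ) +
      t * SS r n c ψ (a + 1 + j) i) = 0) : False := by
  set P : Polynomial ℝ := ∑ i : Fin K, Polynomial.C (p i) * Polynomial.X ^ (i : ℕ) with hPdef
  have hK : 0 < K := by
    rcases Nat.eq_zero_or_pos K with h | h
    · subst h
      exact absurd (Subsingleton.elim p 0) hp
    · exact h
  have hQ1 : 1 ≤ Q := by omega
  have hQr : (1 : ℝ) ≤ Q := by exact_mod_cast hQ1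
  have hrr : (1 : ℝ) ≤ r := by exact_mod_cast hr
  have hKr : (1 : ℝ) ≤ K := by exact_mod_cast hK
  have hKQ : (K : ℝ) ≤ Q := by exact_mod_cast (by omega : K ≤ Q)
  have hcoef : ∀ i : Fin K, P.coeff i = p i := by
    intro i
    rw [hPdef, Polynomial.finsetSum_coeff]
    simp only [Polynomial.coeff_C_mul, Polynomial.coeff_X_pow]
    rw [Finset.sum_eq_single i]
    · simp
    · intro b _ hb
      rw [if_neg, mul_zero]
      intro h
      exact hb (Fin.ext h.symm)
    · simp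
  have hdeg : P.degree < (K : ℕ) := by
    rw [hPdef]
    refine lt_of_le_of_lt (Polynomial.degree_sum_le _ _) ?_
    rw [Finset.sup_lt_iff (by exact_mod_cast WithBot.bot_lt_coe K)]
    intro i _
    refine lt_of_le_of_lt (Polynomial.degree_C_mul_X_pow_le _ _) ?_
    exact_mod_cast i.2
  have hPne : P ≠ 0 := by
    intro h
    apply hp
    ext i
    rw [← hcoef i, h]
    simp
  have heval : ∀ x : ℝ, P.eval x = ∑ i : Fin K, p i * x ^ (i : ℕ) := by
    intro x
    rw [hPdef, Polynomial.eval_finsetSum]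
    simp
  -- the maximum
  set v : ℕ → ℝ := fun q => (a : ℝ) + 1 + q with hv
  obtain ⟨j, hj, hjmax⟩ := Finset.exists_max_image (range K)
    (fun q => |P.eval (v q)| / G a K (v q)) ⟨0, Finset.mem_range.2 hK⟩
  rw [Finset.mem_range] at hj
  set μ : ℝ := |P.eval (v j)| / G a K (v j) with hμdef
  have hμ0 : 0 ≤ μ := div_nonneg (abs_nonneg _) (G_pos _ _ _).le
  have hPμ : ∀ q, q < K → |P.eval ((a : ℝ) + 1 + q)| ≤ μ * G a K ((a : ℝ) + 1 + q) := by
    intro q hq
    have h1 := hjmax q (Finset.mem_range.2 hq)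
    rwa [div_le_iff₀ (G_pos _ _ _)] at h1
  have hμpos : 0 < μ := by
    rcases hμ0.lt_or_eq with h | h
    · exact h
    · exfalso
      apply hPne
      have hz : ∀ q ∈ range K, P.eval (v q) = 0 := by
        intro q hq
        have h1 := hPμ q (Finset.mem_range.1 hq)
        rw [← h, zero_mul] at h1
        exact abs_eq_zero.1 (le_antisymm h1 (abs_nonneg _))
      have hinj : Set.InjOn v (range K : Finset ℕ) := by
        intro i _ j _ hij
        simp only [hv, add_right_inj, Nat.cast_inj] at hij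
        exact hij
      have hdeg' : P.degree < ((range K).card : ℕ) := by rwa [card_range]
      rw [Lagrange.eq_interpolate hinj hdeg', Lagrange.interpolate_apply]
      apply Finset.sum_eq_zero
      intro q hq
      rw [hz q hq, map_zero, zero_mul]
  -- the relation at the node
  set N : ℕ := a + 1 + j with hN
  have hNv : (N : ℝ) = v j := by simp only [hN, hv]; push_cast; ring
  have hNQ : N ≤ Q := by omega
  have hNpos : (0 : ℝ) < N := by exact_mod_cast (by omega : 0 < N)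
  have hrel : P.eval (v j) = -(t * ∑ l ∈ range (N - 1), c (N - (l + 1)) / c N *
      (((N - (l + 1) : ℕ) : ℝ) / N) ^ n *
      coeff (l + 1) ((1 - X) ^ (r * n + 1) * ψ (N - (l + 1)) *
        sub r ((N - (l + 1) : ℕ) : ℝ) P)) := by
    have h1 := hnull ⟨j, hj⟩
    simp only [← hN] at h1
    simp only [mul_add, Finset.sum_add_distrib] at h1
    rw [← hNv, heval, eq_neg_iff_add_eq_zero, ← h1]
    congr 1
    rw [Finset.mul_sum]
    simp only [SS, Finset.mul_sum]
    rw [Finset.sum_comm]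
    refine Finset.sum_congr rfl fun l _ => ?_
    rw [hPdef, ← null_sum, Finset.mul_sum, Finset.mul_sum]
    refine Finset.sum_congr rfl fun i _ => ?_
    ring
  -- bound of each term
  set X0 : ℝ := r * (n + (K : ℝ) * Q) with hX0
  have hX0pos : 0 ≤ X0 := by positivity
  set ρ : ℝ := (((Q : ℝ) - 1) / Q) ^ n with hρ
  have hρ0 : 0 ≤ ρ := by
    rw [hρ]
    apply pow_nonneg
    apply div_nonneg <;> linarith
  set z : ℝ := ((K : ℝ) + 1) * (n + (K : ℝ) * Q) * ρ with hz
  have hz0 : 0 ≤ z := by positivity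
  have hterm : ∀ l ∈ range (N - 1), |c (N - (l + 1)) / c N *
      (((N - (l + 1) : ℕ) : ℝ) / N) ^ n *
      coeff (l + 1) ((1 - X) ^ (r * n + 1) * ψ (N - (l + 1)) *
        sub r ((N - (l + 1) : ℕ) : ℝ) P)| ≤
      K * (μ * G a K (v j)) * (z ^ (l + 1) / ((l + 1).factorial : ℝ)) := by
    intro l hl
    rw [Finset.mem_range] at hl
    set y : ℕ := N - (l + 1) with hy
    have hy1 : 1 ≤ y := by omega
    have hyl : y + (l + 1) = N := by omega
    have hyr : (1 : ℝ) ≤ y := by exact_mod_cast hy1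
    have hyR : (y : ℝ) = N - ((l + 1 : ℕ) : ℝ) := by
      rw [← hyl]; push_cast; ring
    have hyQ : (y : ℝ) ≤ (Q : ℝ) - 1 := by
      have : ((y + 1 : ℕ) : ℝ) ≤ Q := by exact_mod_cast (by omega : y + 1 ≤ Q)
      push_cast at this; linarith
    have b1 : Bd (l + 1) 1 ((r * n + 1 : ℕ) : ℝ) ((1 - X : PowerSeries ℝ) ^ (r * n + 1)) :=
      Bd.one_sub_pow _ _
    have b2 := D.psib y (l + 1) hy1 (by omega)
    have b3 := sub_bound r a K (l + 1) (y : ℝ) hyr P hdeg μ hμ0 hPμ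
    have b4 := Bd.mul (by norm_num) (by positivity) (Bd.mul zero_le_one (by positivity) b1 b2) b3
    have b5 := b4 (l + 1) le_rfl
    have hc1 := D.cpos y hy1
    have hc2 := D.cpos N (by omega)
    have hr0 : (0 : ℝ) < (r : ℝ) ^ (l + 1) := by positivity
    have hcc : c y / c N ≤ 1 / (r : ℝ) ^ (l + 1) := by
      rw [div_le_div_iff₀ hc2 hr0, one_mul, mul_comm]
      have := hG y (l + 1) hy1
      rwa [hyl] at this
    have hXle : ((r * n + 1 : ℕ) : ℝ) + ((r : ℝ) - 1) * Q + ((K : ℝ) - 1) * (r * y) ≤ X0 := by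
      have h1 : ((K : ℝ) - 1) * (r * y) ≤ ((K : ℝ) - 1) * (r * ((Q : ℝ) - 1)) := by
        apply mul_le_mul_of_nonneg_left _ (by linarith)
        exact mul_le_mul_of_nonneg_left hyQ (by linarith)
      have h2 : 0 ≤ (r : ℝ) * ((K : ℝ) - 1) := mul_nonneg (by linarith) (by linarith)
      rw [hX0]
      push_cast
      nlinarith
    have hXge : 0 ≤ ((r * n + 1 : ℕ) : ℝ) + ((r : ℝ) - 1) * Q + ((K : ℝ) - 1) * (r * y) := by
      have h1 : 0 ≤ ((r : ℝ) - 1) * Q := mul_nonneg (by linarith) (by linarith)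
      have h2 : 0 ≤ ((K : ℝ) - 1) * (r * y) := mul_nonneg (by linarith) (by positivity)
      have h3 : (0 : ℝ) ≤ ((r * n + 1 : ℕ) : ℝ) := Nat.cast_nonneg _
      linarith
    have hGy : G a K (y : ℝ) ≤ ((K : ℝ) + 1) ^ (l + 1) * G a K (v j) := by
      rw [hyR, hNv]
      exact G_shifts a K (v j) (l + 1)
    have hpow : ((y : ℝ) / N) ^ n ≤ ρ ^ (l + 1) := by
      rw [hρ, ← pow_mul, mul_comm n, pow_mul]
      apply pow_le_pow_left₀ (by positivity)
      have h1 : (y : ℝ) / N ≤ 1 + ((l + 1 : ℕ) : ℝ) * (-(1 / Q)) := by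
        rw [hyR, sub_div, div_self hNpos.ne']
        have h2 : ((l + 1 : ℕ) : ℝ) * (1 / Q) ≤ ((l + 1 : ℕ) : ℝ) / N := by
          rw [mul_one_div]
          apply div_le_div_of_nonneg_left (by positivity) hNpos
          exact_mod_cast hNQ
        linarith
      have h3 : (1 : ℝ) / Q ≤ 1 := by
        rw [div_le_one (by linarith)]; exact hQr
      have h4 := one_add_mul_le_pow (a := -(1 / (Q : ℝ))) (by linarith) (l + 1)
      refine h1.trans (h4.trans (le_of_eq ?_))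
      congr 1
      field_simp
      ring
    rw [abs_mul, abs_of_nonneg (by positivity : 0 ≤ c y / c N * ((y : ℝ) / N) ^ n)]
    have hfac : (0 : ℝ) < ((l + 1).factorial : ℝ) := by exact_mod_cast (l + 1).factorial_pos
    have hG := G_pos a K (v j)
    have s1 : c y / c N * ((y : ℝ) / N) ^ n ≤ 1 / (r : ℝ) ^ (l + 1) * ρ ^ (l + 1) :=
      mul_le_mul hcc hpow (by positivity) (by positivity)
    have s2 : (1 * 1 * ((K : ℝ) * (μ * G a K (y : ℝ)))) *
        ((((r * n + 1 : ℕ) : ℝ) + ((r : ℝ) - 1) * Q + ((K : ℝ) - 1) * (r * y)) ^ (l + 1) /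
          ((l + 1).factorial : ℝ)) ≤
        ((K : ℝ) * (μ * (((K : ℝ) + 1) ^ (l + 1) * G a K (v j)))) *
          (X0 ^ (l + 1) / ((l + 1).factorial : ℝ)) := by
      rw [one_mul, one_mul]
      apply mul_le_mul
      · apply mul_le_mul_of_nonneg_left _ (by linarith)
        exact mul_le_mul_of_nonneg_left hGy hμ0
      · gcongr
      · positivity
      · positivity
    calc c y / c N * ((y : ℝ) / N) ^ n * _ ≤ (1 / (r : ℝ) ^ (l + 1) * ρ ^ (l + 1)) *
          (((K : ℝ) * (μ * (((K : ℝ) + 1) ^ (l + 1) * G a K (v j)))) *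
          (X0 ^ (l + 1) / ((l + 1).factorial : ℝ))) := by
            apply mul_le_mul s1 (b5.trans s2) (abs_nonneg _) (by positivity)
      _ = _ := by
            have hzp : z ^ (l + 1) = ((K : ℝ) + 1) ^ (l + 1) * (n + (K : ℝ) * Q) ^ (l + 1) *
                ρ ^ (l + 1) := by
              rw [hz, mul_pow, mul_pow]
            have hXp : X0 ^ (l + 1) = (r : ℝ) ^ (l + 1) * (n + (K : ℝ) * Q) ^ (l + 1) := by
              rw [hX0, mul_pow]
            rw [hzp, hXp]
            generalize (n + (K : ℝ) * Q) ^ (l + 1) = x1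
            field_simp
  have hsum : |P.eval (v j)| ≤ K * (μ * G a K (v j)) * (3 / 2 * z) := by
    rw [hrel, abs_neg, abs_mul, abs_of_nonneg ht0]
    have hz1 : z ≤ 1 / 2 := by
      have h1 : z * 2 ≤ 2 * (K : ℝ) * (K + 1) * (n + (K : ℝ) * Q) * ρ := by
        rw [hz]
        have h2 : ((K : ℝ) + 1) ≤ K * (K + 1) := by nlinarith
        have h3 : 0 ≤ (n + (K : ℝ) * Q) * ρ := by positivity
        nlinarith
      linarith
    have h1 : ∑ l ∈ range (N - 1), z ^ (l + 1) / ((l + 1).factorial : ℝ) ≤ 3 / 2 * z := by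
      have h2 := Real.sum_le_exp_of_nonneg hz0 (N - 1 + 1)
      rw [Finset.sum_range_succ'] at h2
      simp only [pow_zero, Nat.factorial_zero, Nat.cast_one, div_one] at h2
      have h3 := Real.abs_exp_sub_one_sub_id_le (x := z) (by
        rw [abs_of_nonneg hz0]; linarith)
      have h4 := (abs_le.1 h3).2
      nlinarith
    have h5 : |∑ l ∈ range (N - 1), c (N - (l + 1)) / c N *
      (((N - (l + 1) : ℕ) : ℝ) / N) ^ n *
      coeff (l + 1) ((1 - X) ^ (r * n + 1) * ψ (N - (l + 1)) *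
        sub r ((N - (l + 1) : ℕ) : ℝ) P)| ≤ K * (μ * G a K (v j)) * (3 / 2 * z) := by
      refine (Finset.abs_sum_le_sum_abs _ _).trans ((Finset.sum_le_sum hterm).trans ?_)
      rw [← Finset.mul_sum]
      apply mul_le_mul_of_nonneg_left h1
      have := G_pos a K (v j)
      positivity
    calc t * _ ≤ 1 * (K * (μ * G a K (v j)) * (3 / 2 * z)) :=
          mul_le_mul ht1 h5 (abs_nonneg _) zero_le_one
      _ = _ := one_mul _
  have hfin : (K : ℝ) * (3 / 2 * z) ≤ 3 / 4 := by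
    have h1 : (K : ℝ) * z * 2 = 2 * (K : ℝ) * (K + 1) * (n + (K : ℝ) * Q) * ρ := by
      rw [hz]
      ring
    linarith
  have hGj := G_pos a K (v j)
  have hPj : |P.eval (v j)| = μ * G a K (v j) := by
    rw [hμdef, div_mul_cancel₀ _ hGj.ne']
  rw [hPj] at hsum
  have hpos : 0 < μ * G a K (v j) := mul_pos hμpos hGj
  nlinarith



theorem solidU (r Q a K n : ℕ) (hr : 1 ≤ r) (c : ℕ → ℝ) (ψ : ℕ → PowerSeries ℝ) (D : Dat r Q c ψ)
    (hG : ∀ y l, 1 ≤ y → (r : ℝ) ^ l * c y ≤ c (y + l)) (hQ : a + K ≤ Q)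
    (H : 2 * (K : ℝ) * (K + 1) * (n + (K : ℝ) * Q) * (((Q : ℝ) - 1) / Q) ^ n ≤ 1) :
    0 < (Matrix.of fun i j : Fin K => uu r c ψ (n + i) (a + 1 + j)).det := by
  set A : Matrix (Fin K) (Fin K) ℝ := Matrix.of fun i j => ((a + 1 + j : ℕ) : ℝ) ^ (i : ℕ) with hA
  set B : Matrix (Fin K) (Fin K) ℝ := Matrix.of fun i j => SS r n c ψ (a + 1 + j) i with hB
  have h1 : (Matrix.of fun i j : Fin K => uu r c ψ (n + i) (a + 1 + j)).det =
      (∏ j : Fin K, (c (a + 1 + j) * ((a + 1 + j : ℕ) : ℝ) ^ n)) * (A + B).det := by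
    rw [← Matrix.det_mul_row]
    congr 1
    ext i j
    simp only [Matrix.of_apply, Matrix.add_apply, hA, hB]
    exact uu_eq D _ _ (by omega)
  rw [h1]
  apply mul_pos
  · apply Finset.prod_pos
    intro j _
    have := D.cpos (a + 1 + j) (by omega)
    positivity
  · apply det_homotopy
    · have h2 : A = (Matrix.vandermonde fun j : Fin K => ((a + 1 + j : ℕ) : ℝ)).transpose := by
        ext i j
        simp [hA, Matrix.vandermonde_apply]
      rw [h2, Matrix.det_transpose, Matrix.det_vandermonde]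
      apply Finset.prod_pos
      intro i _
      apply Finset.prod_pos
      intro j hj
      rw [Finset.mem_Ioi] at hj
      rw [sub_pos, Nat.cast_lt]
      have : (i : ℕ) < j := hj
      omega
    · intro t ht0 ht1 hdet
      obtain ⟨p, hp, hp2⟩ := Matrix.exists_vecMul_eq_zero_iff.2 hdet
      refine keyU r Q a K n hr c ψ D hG hQ H t ht0 ht1 p hp ?_
      intro j
      have h3 := congrFun hp2 j
      simp only [Matrix.vecMul, dotProduct, Matrix.add_apply, Matrix.smul_apply, hA, hB,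
        Matrix.of_apply, smul_eq_mul, Pi.zero_apply] at h3
      exact h3


/-- all minors of order at most `K` of the block are positive -/
theorem all_posU (r Q K n1 : ℕ) (hr : 1 ≤ r) (hQ : 1 ≤ Q) (c : ℕ → ℝ) (ψ : ℕ → PowerSeries ℝ)
    (D : Dat r Q c ψ) (hG : ∀ y l, 1 ≤ y → (r : ℝ) ^ l * c y ≤ c (y + l))
    (H : 2 * (K : ℝ) * (K + 1) * (n1 + (K : ℝ) * Q) * (((Q : ℝ) - 1) / Q) ^ n1 ≤ 1)
    {m : ℕ} (hm : m ≤ K) (f g : Fin m → ℕ) (hf : StrictMono f) (hg : StrictMono g)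
    (hfn : ∀ i, n1 ≤ f i) (hgQ : ∀ j, g j < Q) :
    0 < (Matrix.of fun i j : Fin m => uu r c ψ (f i) (g j + 1)).det := by
  refine fekete n1 Q (fun n k => uu r c ψ n (k + 1)) ?_ f g hf hg hfn hgQ
  intro j n k hj hn hk
  rcases Nat.eq_zero_or_pos j with h0 | h0
  · subst h0
    simp
  have H1 : 2 * ((1 : ℕ) : ℝ) * K * (K + 1) * (n1 + (K : ℝ) * Q) * (((Q : ℝ) - 1) / Q) ^ n1 ≤ 1 := by
    rw [Nat.cast_one, mul_one]; exact H
  have H2 := cond_mono 1 Q j hQ h0 n1 n hn (cond_order 1 Q j K hQ (hj.trans hm) n1 H1)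
  rw [Nat.cast_one, mul_one] at H2
  have h1 := solidU r Q k j n hr c ψ D hG hk H2
  refine lt_of_lt_of_eq h1 ?_
  congr 1
  ext i l
  simp only [Matrix.of_apply]
  congr 1
  omega



/-- the deep block, under a numerical condition without `r` -/
theorem deep_condU (r Q K n1 : ℕ) (hr : 1 ≤ r) (hQ : 1 ≤ Q)
    (H : 2 * (K : ℝ) * (K + 1) * (n1 + (K : ℝ) * Q) * (((Q : ℝ) - 1) / Q) ^ n1 ≤ 1)
    (E : ℕ → ℕ → ℤ) (hE : IsE r E) {m : ℕ} (hm : m ≤ K) (f g : Fin m → ℕ) (hf : StrictMono f)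
    (hg : StrictMono g) (hfn : ∀ i, n1 ≤ f i) (hgQ : ∀ j, g j < Q) :
    0 < Matrix.det (Matrix.of fun i j => E (f i) (g j)) := by
  obtain ⟨s, rfl⟩ : ∃ s, r = s + 1 := ⟨r - 1, by omega⟩
  have h1 := all_posU (s + 1) Q K n1 hr hQ (cc s) (fun y => psi s (y : ℝ)) (dat s Q)
    (fun y l hy => by
      have := cc_grow_pow s y l hy
      push_cast
      exact this) H hm f g hf hg hfn hgQ
  have h2 : (Matrix.of fun i j : Fin m => uu (s + 1) (cc s) (fun y => psi s (y : ℝ)) (f i)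
      (g j + 1)).det = ((Matrix.det (Matrix.of fun i j => E (f i) (g j)) : ℤ) : ℝ) := by
    have h3 := RingHom.map_det (Int.castRingHom ℝ) (Matrix.of fun i j : Fin m => E (f i) (g j))
    have h4 : (Int.castRingHom ℝ) (Matrix.det (Matrix.of fun i j : Fin m => E (f i) (g j))) =
        ((Matrix.det (Matrix.of fun i j : Fin m => E (f i) (g j)) : ℤ) : ℝ) := rfl
    rw [← h4, h3]
    congr 1
    ext i j
    simp only [Matrix.of_apply, RingHom.mapMatrix_apply, Matrix.map_apply]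
    rw [← coeff_U_eq]
    exact (E_eq s E hE.h00 hE.h0 hE.hc hE.hs (f i) (g j)).symm
  rw [h2] at h1
  exact_mod_cast h1

theorem pow_aux (L : ℕ) (hL : 2 ≤ L) : 2 * 4 ^ L * (2 ^ L + 1) * (4 * L + 2 ^ L) ≤ 53 ^ L := by
  induction L, hL using Nat.le_induction with
  | base => norm_num
  | succ L hL ih =>
    have h1 : 2 ^ (L + 1) + 1 ≤ 2 * (2 ^ L + 1) := by rw [pow_succ]; omega
    have h2 : 4 * (L + 1) + 2 ^ (L + 1) ≤ 2 * (4 * L + 2 ^ L) := by rw [pow_succ]; omega
    calc 2 * 4 ^ (L + 1) * (2 ^ (L + 1) + 1) * (4 * (L + 1) + 2 ^ (L + 1))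
        ≤ 2 * 4 ^ (L + 1) * (2 * (2 ^ L + 1)) * (2 * (4 * L + 2 ^ L)) := by gcongr
      _ = 16 * (2 * 4 ^ L * (2 ^ L + 1) * (4 * L + 2 ^ L)) := by rw [pow_succ]; ring
      _ ≤ 53 * 53 ^ L := Nat.mul_le_mul (by norm_num) ih
      _ = 53 ^ (L + 1) := by rw [pow_succ]; ring

/-- the explicit threshold -/
theorem thresholdU (Q : ℕ) (hQ : 2 ≤ Q) :
    2 * (Q : ℝ) * (Q + 1) * ((4 * Q * Nat.clog 2 Q : ℕ) + (Q : ℝ) * Q) *
      (((Q : ℝ) - 1) / Q) ^ (4 * Q * Nat.clog 2 Q) ≤ 1 := by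
  rcases Nat.lt_or_ge Q 3 with h3 | h3
  · have hQ2 : Q = 2 := by omega
    subst hQ2
    have hc : Nat.clog 2 2 = 1 := by
      have := Nat.clog_pow 2 1 (by norm_num)
      simpa using this
    rw [hc]
    norm_num
  · set L := Nat.clog 2 Q with hL
    have hL2 : 2 ≤ L := by
      by_contra hcon
      have h1 : Q ≤ 2 ^ L := Nat.le_pow_clog (by norm_num) _
      have h2 : 2 ^ L ≤ 2 ^ 1 := Nat.pow_le_pow_right (by norm_num) (by omega)
      omega
    have hx : Q ≤ 2 ^ L := Nat.le_pow_clog (by norm_num) _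
    have hQr : (1 : ℝ) ≤ Q := by exact_mod_cast (by omega : 1 ≤ Q)
    have h0 : (0 : ℝ) ≤ ((Q : ℝ) - 1) / Q := div_nonneg (by linarith) (by linarith)
    have he : (((Q : ℝ) - 1) / Q) ^ Q ≤ 37 / 100 := by
      have h3 := Real.one_sub_div_pow_le_exp_neg (n := Q) (t := 1) hQr
      have h4 : (1 : ℝ) - 1 / Q = ((Q : ℝ) - 1) / Q := by
        rw [sub_div, div_self (by linarith)]
      rw [h4] at h3
      refine h3.trans ?_
      rw [Real.exp_neg, inv_le_comm₀ (Real.exp_pos 1) (by norm_num)]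
      have := Real.exp_one_gt_d9
      norm_num
      linarith
    have hp : (((Q : ℝ) - 1) / Q) ^ (4 * Q * L) ≤ (1 / 53 : ℝ) ^ L := by
      have h5 : (((Q : ℝ) - 1) / Q) ^ (4 * Q * L) = (((((Q : ℝ) - 1) / Q) ^ Q) ^ 4) ^ L := by
        rw [← pow_mul, ← pow_mul]
        congr 1
        ring
      have h6 : ((((Q : ℝ) - 1) / Q) ^ Q) ^ 4 ≤ (37 / 100 : ℝ) ^ 4 :=
        pow_le_pow_left₀ (pow_nonneg h0 _) he 4
      have h7 : ((37 / 100 : ℝ)) ^ 4 ≤ 1 / 53 := by norm_num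
      rw [h5]
      exact pow_le_pow_left₀ (pow_nonneg (pow_nonneg h0 _) _) (h6.trans h7) L
    have hc : 2 * (Q : ℝ) * (Q + 1) * (((4 * Q * L : ℕ) : ℝ) + (Q : ℝ) * Q) ≤ 53 ^ L := by
      have hn : 2 * Q * (Q + 1) * (4 * Q * L + Q * Q) ≤ 53 ^ L := by
        refine le_trans ?_ (pow_aux L hL2)
        calc 2 * Q * (Q + 1) * (4 * Q * L + Q * Q) = 2 * (Q * Q) * (Q + 1) * (4 * L + Q) := by ring
          _ ≤ 2 * (2 ^ L * 2 ^ L) * (2 ^ L + 1) * (4 * L + 2 ^ L) := by gcongr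
          _ = _ := by
            have : (4 : ℕ) ^ L = 2 ^ L * 2 ^ L := by rw [← mul_pow]; norm_num
            rw [this]
      have h8 : ((2 * Q * (Q + 1) * (4 * Q * L + Q * Q) : ℕ) : ℝ) ≤ ((53 ^ L : ℕ) : ℝ) := by
        exact_mod_cast hn
      push_cast at h8 ⊢
      exact h8
    calc 2 * (Q : ℝ) * (Q + 1) * (((4 * Q * L : ℕ) : ℝ) + (Q : ℝ) * Q) *
          (((Q : ℝ) - 1) / Q) ^ (4 * Q * L) ≤ 53 ^ L * (1 / 53 : ℝ) ^ L :=
          mul_le_mul hc hp (pow_nonneg h0 _) (by positivity)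
      _ = 1 := by rw [← mul_pow]; norm_num

/-- **Deep rows.** -/
theorem deepU (r Q : ℕ) (hr : 1 ≤ r) (E : ℕ → ℕ → ℤ) (hE : IsE r E) {m : ℕ} (f g : Fin m → ℕ)
    (hf : StrictMono f) (hg : StrictMono g) (hfn : ∀ i, 4 * Q * Nat.clog 2 Q ≤ f i)
    (hgQ : ∀ j, g j < Q) : 0 < Matrix.det (Matrix.of fun i j => E (f i) (g j)) := by
  rcases m with _ | m
  · simp
  have hQ : 1 ≤ Q := by
    have := hgQ 0
    omega
  rcases Nat.lt_or_ge Q 2 with h | h
  · -- one column
    have hQ1 : Q = 1 := by omega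
    subst hQ1
    have hm : m = 0 := by
      by_contra hm0
      have h1 := hgQ 0
      have h2 := hgQ ⟨1, by omega⟩
      have h3 : g 0 < g ⟨1, by omega⟩ := hg (by
        rw [Fin.lt_def]; simp)
      omega
    subst hm
    have h4 : g 0 = 0 := by have := hgQ 0; omega
    have h5 : ∀ n, E n 0 = 1 := by
      intro n
      induction n with
      | zero => exact hE.h00
      | succ n ih => rw [hE.hc, ih]
    rw [Matrix.det_fin_one]
    simp only [Matrix.of_apply]
    rw [h4, h5]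
    norm_num
  · have hm : m + 1 ≤ Q := by
      have h1 : (Finset.univ.image g).card = m + 1 := by
        rw [Finset.card_image_of_injective _ hg.injective, Finset.card_univ, Fintype.card_fin]
      have h2 : Finset.univ.image g ⊆ Finset.range Q := by
        intro x hx
        obtain ⟨j, _, rfl⟩ := Finset.mem_image.1 hx
        exact Finset.mem_range.2 (hgQ j)
      have h3 := Finset.card_le_card h2
      rwa [h1, Finset.card_range] at h3
    exact deep_condU r Q Q _ hr hQ (thresholdU Q h) E hE hm f g hf hg hfn hgQ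

end Pool.Agent.H6.TPU
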