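import Pool.Agent.H48.TP.Mono

/-!
# The leading coefficients grow at least like the powers of `r`

`U = Σ c_N z^N` satisfies `z U' = U (1 + U)^r`; from this `c_(N+1) ≥ r c_N`.
-/

set_option autoImplicit false

namespace Pool.Agent.H6.TPU

open PowerSeries Finset Pool.Agent.H48.TP

/-! ### series with nonnegative coefficients -/

def NN (f : PowerSeries ℝ) : Prop := ∀ n, 0 ≤ coeff n f

theorem NN.mul {f g : PowerSeries ℝ} (hf : NN f) (hg : NN g) : NN (f * g) := by
  intro n
  rw [PowerSeries.coeff_mul]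
  exact Finset.sum_nonneg fun p _ => mul_nonneg (hf _) (hg _)

theorem NN.add {f g : PowerSeries ℝ} (hf : NN f) (hg : NN g) : NN (f + g) := by
  intro n
  rw [map_add]
  exact add_nonneg (hf n) (hg n)

theorem NN.one : NN 1 := by
  intro n
  rw [PowerSeries.coeff_one]
  split_ifs <;> norm_num

theorem NN.C {x : ℝ} (hx : 0 ≤ x) : NN (PowerSeries.C x) := by
  intro n
  rw [PowerSeries.coeff_C]
  split_ifs
  · exact hx
  · exact le_rfl

theorem NN.pow {f : PowerSeries ℝ} (hf : NN f) (m : ℕ) : NN (f ^ m) := by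
  induction m with
  | zero => rw [pow_zero]; exact NN.one
  | succ m ih => rw [pow_succ]; exact ih.mul hf

/-! ### convolutions -/

theorem coeff_mul_range (f g : PowerSeries ℝ) (n : ℕ) :
    coeff n (f * g) = ∑ j ∈ range (n + 1), coeff j f * coeff (n - j) g := by
  rw [PowerSeries.coeff_mul, Finset.Nat.sum_antidiagonal_eq_sum_range_succ_mk]

theorem conv_ge (r : ℝ) (v g : ℕ → ℝ) (M : ℕ) (h0 : v 0 = 0) (h1 : v 1 = 1)
    (hg : ∀ n, 0 ≤ g n) (hv : ∀ j, 1 ≤ j → j ≤ M → r * v j ≤ v (j + 1)) :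
    g M + r * ∑ j ∈ range (M + 1), v j * g (M - j) ≤
      ∑ j ∈ range (M + 1), v (j + 1) * g (M - j) := by
  rw [Finset.sum_range_succ', Finset.sum_range_succ', h0, h1, zero_mul, add_zero, one_mul,
    Nat.sub_zero, add_comm, Finset.mul_sum]
  apply add_le_add_left
  refine Finset.sum_le_sum fun j hj => ?_
  rw [Finset.mem_range] at hj
  have h2 := hv (j + 1) (by omega) (by omega)
  rw [← mul_assoc]
  exact mul_le_mul_of_nonneg_right h2 (hg _)

theorem conv_ge' (r : ℝ) (v z : ℕ → ℝ) (M : ℕ) (h0 : v 0 = 0) (hv : ∀ n, 0 ≤ v n)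
    (hz : ∀ j, j < M → r * z j ≤ z (j + 1)) :
    r * ∑ j ∈ range (M + 1), z j * v (M - j) ≤ ∑ j ∈ range (M + 1), z (j + 1) * v (M - j) := by
  rw [Finset.mul_sum]
  refine Finset.sum_le_sum fun j hj => ?_
  rw [Finset.mem_range] at hj
  rcases Nat.lt_or_ge j M with h | h
  · rw [← mul_assoc]
    exact mul_le_mul_of_nonneg_right (hz j h) (hv _)
  · have : j = M := by omega
    subst this
    rw [Nat.sub_self, h0]
    simp

/-! ### growth from the differential equation -/

theorem dd_one : dd (1 : PowerSeries ℝ) = 0 := by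
  ext n
  rw [coeff_dd, PowerSeries.coeff_one]
  split_ifs with h
  · subst h; simp
  · simp

section

variable (s : ℕ) (U : PowerSeries ℝ)

theorem dd_pow (hode : dd U = U * (1 + U) ^ (s + 1)) (m : ℕ) :
    dd ((1 + U) ^ m) = C (m : ℝ) * (U * (1 + U) ^ (m + s)) := by
  induction m with
  | zero => simp [dd_one]
  | succ m ih =>
    have h1 : (C ((m + 1 : ℕ) : ℝ) : PowerSeries ℝ) = C (m : ℝ) + 1 := by
      push_cast
      rw [map_add, map_one]
    rw [pow_succ, dd_mul, ih, dd_add, dd_one, hode, h1]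
    ring

theorem grow (h0 : coeff 0 U = 0) (h1 : coeff 1 U = 1) (hN : NN U)
    (hode : dd U = U * (1 + U) ^ (s + 1)) (M : ℕ) (hM : 1 ≤ M) :
    ((s : ℝ) + 1) * coeff M U ≤ coeff (M + 1) U := by
  set r : ℝ := (s : ℝ) + 1 with hr
  have hr0 : 0 ≤ r := by positivity
  have hCr : (C r : PowerSeries ℝ) = C (s : ℝ) + 1 := by rw [hr, map_add, map_one]
  set B : PowerSeries ℝ := 1 + U with hB
  set V : PowerSeries ℝ := U * B ^ s with hV
  set Z : PowerSeries ℝ := B ^ s * (1 + C r * U) with hZ
  set Y : PowerSeries ℝ := B ^ (s + 1) with hY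
  have nB : NN B := NN.one.add hN
  have nV : NN V := hN.mul (nB.pow s)
  have nZ : NN Z := (nB.pow s).mul (NN.one.add ((NN.C hr0).mul hN))
  have nY : NN Y := nB.pow _
  have nBs : NN (B ^ s) := nB.pow s
  have e1 : dd (B ^ s) = C (s : ℝ) * (U * B ^ (s + s)) := dd_pow s U hode s
  have eV : dd V = Z * V := by
    rw [hV, dd_mul, e1, hode, hZ, hCr, hB]
    ring
  have eZ : dd Z = V * (C r * Z + C (s : ℝ) * B ^ s) := by
    have e2 : dd (1 + C r * U) = C r * (U * B ^ (s + 1)) := by
      rw [dd_add, dd_one, zero_add, dd_C_mul, hode]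
    rw [hZ, dd_mul, e1, e2, hV, hCr, hB]
    ring
  have eY : dd Y = C r * (V * Y) := by
    have e3 := dd_pow s U hode (s + 1)
    rw [← hB, ← hY] at e3
    rw [e3, hV, hY]
    have : (C ((s + 1 : ℕ) : ℝ) : PowerSeries ℝ) = C r := by rw [hr]; push_cast; rfl
    rw [this]
    ring
  have eU : dd U = Y * U := by rw [hode, hY]; ring
  -- constant coefficients
  have cB : coeff 0 B = 1 := by rw [hB, map_add, h0]; simp
  have cBp : ∀ m : ℕ, coeff 0 (B ^ m) = 1 := by
    intro m
    induction m with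
    | zero => simp
    | succ m ih => rw [pow_succ, coeff_mul_range]; simp [ih, cB]
  have cV0 : coeff 0 V = 0 := by rw [hV, coeff_mul_range]; simp [h0]
  have cV1 : coeff 1 V = 1 := by
    rw [hV, coeff_mul_range, Finset.sum_range_succ, Finset.sum_range_one, h0, h1]
    simp [cBp s]
  have cZ0 : coeff 0 Z = 1 := by
    have : coeff 0 (1 + C r * U) = 1 := by
      rw [map_add, PowerSeries.coeff_C_mul, h0]; simp
    rw [hZ, coeff_mul_range]
    simp [cBp s, this]
  have cY0 : coeff 0 Y = 1 := cBp _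
  -- recursions
  have recV : ∀ n : ℕ, (n : ℝ) * coeff n V = ∑ j ∈ range (n + 1), coeff j Z * coeff (n - j) V := by
    intro n
    rw [← coeff_dd, eV, coeff_mul_range]
  have recZ : ∀ n : ℕ, (n : ℝ) * coeff n Z = ∑ j ∈ range (n + 1), coeff j V *
      (r * coeff (n - j) Z + s * coeff (n - j) (B ^ s)) := by
    intro n
    rw [← coeff_dd, eZ, coeff_mul_range]
    refine Finset.sum_congr rfl fun j _ => ?_
    rw [map_add, PowerSeries.coeff_C_mul, PowerSeries.coeff_C_mul]
  have recY : ∀ n : ℕ, (n : ℝ) * coeff n Y = r * ∑ j ∈ range (n + 1), coeff j V * coeff (n - j) Y := by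
    intro n
    rw [← coeff_dd, eY, PowerSeries.coeff_C_mul, coeff_mul_range]
  have recU : ∀ n : ℕ, (n : ℝ) * coeff n U = ∑ j ∈ range (n + 1), coeff j Y * coeff (n - j) U := by
    intro n
    rw [← coeff_dd, eU, coeff_mul_range]
  -- a general step: `D f = g f` with `g 0 = 1`, `f 0 = 0`
  have step : ∀ (f g : PowerSeries ℝ), coeff 0 g = 1 → coeff 0 f = 0 → NN f →
      (∀ n : ℕ, (n : ℝ) * coeff n f = ∑ j ∈ range (n + 1), coeff j g * coeff (n - j) f) →
      ∀ n : ℕ, 1 ≤ n → (∀ j, j < n → r * coeff j g ≤ coeff (j + 1) g) →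
      r * coeff n f ≤ coeff (n + 1) f := by
    intro f g g0 f0 nf hrec n hn hg
    have a1 := hrec (n + 1)
    rw [Finset.sum_range_succ', g0, one_mul, Nat.sub_zero] at a1
    have a2 : ∑ j ∈ range (n + 1), coeff (j + 1) g * coeff (n + 1 - (j + 1)) f =
        ∑ j ∈ range (n + 1), coeff (j + 1) g * coeff (n - j) f := by
      refine Finset.sum_congr rfl fun j _ => ?_
      rw [Nat.add_sub_add_right]
    rw [a2] at a1
    have a3 := conv_ge' r (fun j => coeff j f) (fun j => coeff j g) n f0 nf hg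
    rw [← hrec n] at a3
    have hn' : (0 : ℝ) < n := by exact_mod_cast hn
    have a4 : r * ((n : ℝ) * coeff n f) ≤ (n : ℝ) * coeff (n + 1) f := by
      push_cast at a1
      linarith
    have a5 : (n : ℝ) * (r * coeff n f) ≤ (n : ℝ) * coeff (n + 1) f := by
      linarith
    exact le_of_mul_le_mul_left a5 hn'
  -- the simultaneous induction
  have main : ∀ n : ℕ, (1 ≤ n → r * coeff n V ≤ coeff (n + 1) V) ∧ r * coeff n Z ≤ coeff (n + 1) Z := by
    intro n
    induction n using Nat.strong_induction_on with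
    | _ n ih =>
      have hv : 1 ≤ n → r * coeff n V ≤ coeff (n + 1) V := fun hn =>
        step V Z cZ0 cV0 nV recV n hn fun j hj => (ih j hj).2
      refine ⟨hv, ?_⟩
      have b1 := recZ (n + 1)
      rw [Finset.sum_range_succ', cV0, zero_mul, add_zero] at b1
      have b2 : ∑ j ∈ range (n + 1), coeff (j + 1) V * (r * coeff (n + 1 - (j + 1)) Z +
          s * coeff (n + 1 - (j + 1)) (B ^ s)) =
          ∑ j ∈ range (n + 1), coeff (j + 1) V * (r * coeff (n - j) Z +
          s * coeff (n - j) (B ^ s)) := by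
        refine Finset.sum_congr rfl fun j _ => ?_
        rw [Nat.add_sub_add_right]
      rw [b2] at b1
      have b3 := conv_ge r (fun j => coeff j V) (fun j => r * coeff j Z + s * coeff j (B ^ s)) n
        cV0 cV1 (fun j => add_nonneg (mul_nonneg hr0 (nZ j))
          (mul_nonneg (Nat.cast_nonneg s) (nBs j)))
        (fun j hj1 hj2 => by
          rcases Nat.lt_or_ge j n with h | h
          · exact (ih j h).1 hj1
          · have : j = n := by omega
            subst this
            exact hv hj1)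
      rw [← recZ n, ← b1] at b3
      have b4 : 0 ≤ (s : ℝ) * coeff n (B ^ s) := mul_nonneg (Nat.cast_nonneg s) (nBs n)
      have hn' : (0 : ℝ) < (n : ℝ) + 1 := by positivity
      have b5 : ((n : ℝ) + 1) * (r * coeff n Z) ≤ ((n : ℝ) + 1) * coeff (n + 1) Z := by
        push_cast at b3
        nlinarith
      exact le_of_mul_le_mul_left b5 hn'
  have hYg : ∀ n : ℕ, r * coeff n Y ≤ coeff (n + 1) Y := by
    intro n
    have b1 := recY (n + 1)
    rw [Finset.sum_range_succ', cV0, zero_mul, add_zero] at b1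
    have b2 : ∑ j ∈ range (n + 1), coeff (j + 1) V * coeff (n + 1 - (j + 1)) Y =
        ∑ j ∈ range (n + 1), coeff (j + 1) V * coeff (n - j) Y := by
      refine Finset.sum_congr rfl fun j _ => ?_
      rw [Nat.add_sub_add_right]
    rw [b2] at b1
    have b3 := conv_ge r (fun j => coeff j V) (fun j => coeff j Y) n cV0 cV1 nY
      (fun j hj1 _ => (main j).1 hj1)
    have b6 := mul_le_mul_of_nonneg_left b3 hr0
    rw [← b1, mul_add, ← recY n] at b6
    have hn' : (0 : ℝ) < (n : ℝ) + 1 := by positivity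
    have b5 : ((n : ℝ) + 1) * (r * coeff n Y) ≤ ((n : ℝ) + 1) * coeff (n + 1) Y := by
      push_cast at b6
      linarith
    exact le_of_mul_le_mul_left b5 hn'
  exact step U Y cY0 h0 hN recU M hM fun j _ => hYg j

end

end Pool.Agent.H6.TPU
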