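import Pool.Agent.H48.TP.Run

/-!
# Elimination over the polynomials in `s = r - 1`, coded by numbers
-/

set_option autoImplicit false

namespace Pool.Agent.H6.TPU

open Pool.Agent.H48.TP

/-- the mask of the high parts of the digits -/
def maskK (t b : ℕ) : ℕ → ℕ
  | 0 => 0
  | D + 1 => Nat.add t (Nat.mul b (maskK t b D))

/-- application, so that a number is shared -/
def app (x : ℕ) (k : ℕ → Bool) : Bool := k x

/-- the check that all digits are small -/
def okN (X M w : ℕ) (c : Bool) : Bool :=
  cond (Nat.ble w X) (cond (Nat.beq (Nat.land w M) 0) c false) false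

/-- elimination with division by the pivot `p` -/
def elimP (X M p a b : ℕ) : List ℕ → List ℕ → (List ℕ → Bool) → Bool
  | [], _, k => k []
  | _ :: _, [], _ => false
  | u :: us, v :: vs, k => app (Nat.mul a v) fun x => app (Nat.mul b u) fun y =>
      cond (Nat.ble y x) (app (Nat.sub x y) fun z => cond (Nat.beq (Nat.mod z p) 0)
        (app (Nat.div z p) fun w => okN X M w
          (elimP X M p a b us vs fun l => k (w :: l))) false) false

/-- one new row through all stages -/
def stepP (β X M : ℕ) : ℕ → List (List ℕ) → List ℕ → (List (List ℕ) → Bool) → Bool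
  | _, _, [], k => k []
  | _, [], b :: vs, k => cond (Nat.ble 1 (Nat.mod b β)) (k [b :: vs]) false
  | _, [] :: _, _ :: _, _ => false
  | p, (a :: us) :: rest, b :: vs, k => cond (Nat.ble 1 (Nat.mod b β))
      (elimP X M p a b us vs fun e => stepP β X M a rest e fun rest' =>
        k ((b :: vs) :: rest')) false

/-- the next row of the triangle -/
def nextP (β X M n : ℕ) : ℕ → ℕ → List ℕ → (List ℕ → Bool) → Bool
  | _, _, [], k => k []
  | j, p, x :: xs, k =>
      app (Nat.add (Nat.mul (Nat.add j 2) x) (Nat.mul (Nat.add (Nat.mul β n) (Nat.sub n j)) p))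
        fun y => okN X M y (nextP β X M n (Nat.add j 1) x xs fun l => k (y :: l))

/-- the loop -/
def runP (β X M : ℕ) : ℕ → ℕ → List ℕ → List (List ℕ) → Bool
  | 0, _, _, _ => true
  | f + 1, n, row, st => stepP β X M 1 st row fun st' =>
      match row with
      | [] => true
      | p :: xs => nextP β X M n 0 p xs fun l => runP β X M f (n + 1) (p :: l) st'

/-- the whole check: `C` columns, `R` rows, at most `D` digits of `B` bits, all below `2 ^ h` -/
def chkP (B h D C R : ℕ) : Bool :=
  force (2 ^ B) fun β => force (2 ^ (B * D) - 1) fun X => force (maskK (β - 2 ^ h) β D) fun M =>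
    runP β X M R 1 (1 :: List.replicate (C - 1) 0) []

end Pool.Agent.H6.TPU
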