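import Mathlib
import Pool.Agent.H6.TPU.RunP

/-!
# Polynomials with natural coefficients coded by one number (Kronecker substitution)
-/

set_option autoImplicit false

namespace Pool.Agent.H6.TPU

open Finset

/-- the polynomial coded by `N` in base `β` -/
noncomputable def PN (β N : ℕ) : Polynomial ℕ := Nat.ofDigits (Polynomial.X : Polynomial ℕ) (Nat.digits β N)

/-- its value at a real number -/
noncomputable def VV (β : ℕ) (s : ℝ) (N : ℕ) : ℝ := Nat.ofDigits s (Nat.digits β N)

/-- the sum of its coefficients -/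
def SS (β N : ℕ) : ℕ := (Nat.digits β N).sum

theorem od_nil {A : Type*} [Semiring A] (x : A) : Nat.ofDigits x [] = 0 := rfl

theorem od_cons {A : Type*} [Semiring A] (x : A) (d : ℕ) (L : List ℕ) :
    Nat.ofDigits x (d :: L) = (d : A) + x * Nat.ofDigits x L := rfl

theorem map_ofDigits {A B : Type*} [Semiring A] [Semiring B] (φ : A →+* B) (x : A) (L : List ℕ) :
    φ (Nat.ofDigits x L) = Nat.ofDigits (φ x) L := by
  induction L with
  | nil => rw [od_nil, od_nil, map_zero]
  | cons d L ih => rw [od_cons, od_cons, map_add, map_mul, ih, map_natCast]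

theorem PN_eval (β N : ℕ) : (PN β N).eval β = N := by
  have h := map_ofDigits (Polynomial.evalRingHom β) (Polynomial.X : Polynomial ℕ) (Nat.digits β N)
  simp only [Polynomial.coe_evalRingHom, Polynomial.eval_X] at h
  rw [PN, h]
  exact Nat.ofDigits_digits β N

theorem PN_eval_one (β N : ℕ) : (PN β N).eval 1 = SS β N := by
  have h := map_ofDigits (Polynomial.evalRingHom (1 : ℕ)) (Polynomial.X : Polynomial ℕ)
    (Nat.digits β N)
  simp only [Polynomial.coe_evalRingHom, Polynomial.eval_X] at h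
  rw [PN, h, SS, Nat.ofDigits_one]

theorem PN_eval₂ (β N : ℕ) (s : ℝ) : (PN β N).eval₂ (Nat.castRingHom ℝ) s = VV β s N := by
  have h := map_ofDigits (Polynomial.eval₂RingHom (Nat.castRingHom ℝ) s)
    (Polynomial.X : Polynomial ℕ) (Nat.digits β N)
  simp only [Polynomial.coe_eval₂RingHom, Polynomial.eval₂_X] at h
  rw [PN, h, VV]

theorem sum_uniq (β : ℕ) : ∀ (M : ℕ) (f g : ℕ → ℕ), (∀ i, f i < β) → (∀ i, g i < β) →
    ∑ i ∈ range M, f i * β ^ i = ∑ i ∈ range M, g i * β ^ i → ∀ i, i < M → f i = g i := by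
  intro M
  induction M with
  | zero => intro f g _ _ _ i hi; omega
  | succ M ih =>
    intro f g hf hg h i hi
    have key : ∀ f : ℕ → ℕ, ∑ i ∈ range (M + 1), f i * β ^ i =
        f 0 + β * ∑ i ∈ range M, f (i + 1) * β ^ i := by
      intro f
      rw [Finset.sum_range_succ', Finset.mul_sum, add_comm]
      congr 1
      · simp
      · refine Finset.sum_congr rfl fun i _ => ?_
        rw [pow_succ]; ring
    rw [key, key] at h
    have hβ : 0 < β := lt_of_le_of_lt (Nat.zero_le _) (hf 0)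
    have h0 : f 0 = g 0 := by
      have h1 := congrArg (· % β) h
      simp only [Nat.add_mul_mod_self_left, Nat.mod_eq_of_lt (hf 0), Nat.mod_eq_of_lt (hg 0)] at h1
      exact h1
    rw [h0] at h
    have h2 := Nat.eq_of_mul_eq_mul_left hβ (Nat.add_left_cancel h)
    rcases i with _ | i
    · exact h0
    · exact ih (fun i => f (i + 1)) (fun i => g (i + 1)) (fun i => hf _) (fun i => hg _) h2 i
        (by omega)

theorem coeff_le_eval_one (F : Polynomial ℕ) (i : ℕ) : F.coeff i ≤ F.eval 1 := by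
  by_cases h : i ∈ F.support
  · rw [Polynomial.eval_eq_sum, Polynomial.sum]
    have := Finset.single_le_sum (f := fun j => F.coeff j * 1 ^ j) (s := F.support)
      (fun j _ => Nat.zero_le _) h
    simpa using this
  · rw [Polynomial.notMem_support_iff.1 h]
    exact Nat.zero_le _

theorem uniq (β : ℕ) (F G : Polynomial ℕ) (h : F.eval β = G.eval β) (hF : F.eval 1 < β)
    (hG : G.eval 1 < β) : F = G := by
  ext i
  have hM1 : F.natDegree < max (max F.natDegree G.natDegree) i + 1 := by omega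
  have hM2 : G.natDegree < max (max F.natDegree G.natDegree) i + 1 := by omega
  rw [Polynomial.eval_eq_sum_range' hM1, Polynomial.eval_eq_sum_range' hM2] at h
  exact sum_uniq β _ _ _ (fun i => lt_of_le_of_lt (coeff_le_eval_one F i) hF)
    (fun i => lt_of_le_of_lt (coeff_le_eval_one G i) hG) h i (by omega)

/-- a product identity of codes gives an identity of values -/
theorem kron (β lim : ℕ) (hβ : 2 * (lim * lim) < β) (p w b u a v : ℕ) (hp : SS β p ≤ lim)
    (hw : SS β w ≤ lim) (hb : SS β b ≤ lim) (hu : SS β u ≤ lim) (ha : SS β a ≤ lim)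
    (hv : SS β v ≤ lim) (h : p * w + b * u = a * v) (s : ℝ) :
    VV β s p * VV β s w + VV β s b * VV β s u = VV β s a * VV β s v := by
  have h1 : PN β p * PN β w + PN β b * PN β u = PN β a * PN β v := by
    apply uniq β
    · simp only [Polynomial.eval_add, Polynomial.eval_mul, PN_eval]
      exact h
    · simp only [Polynomial.eval_add, Polynomial.eval_mul, PN_eval_one]
      have e1 := Nat.mul_le_mul hp hw
      have e2 := Nat.mul_le_mul hb hu
      omega
    · simp only [Polynomial.eval_mul, PN_eval_one]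
      have e1 := Nat.mul_le_mul ha hv
      omega
  have h2 := congrArg (Polynomial.eval₂ (Nat.castRingHom ℝ) s) h1
  simp only [Polynomial.eval₂_add, Polynomial.eval₂_mul, PN_eval₂] at h2
  exact h2

/-- the recursion of the triangle -/
theorem kron_next (β lim : ℕ) (n m j x p y : ℕ) (hβ : (j + 2 + n + m) * lim < β) (hlim : lim < β)
    (hx : SS β x ≤ lim) (hp : SS β p ≤ lim) (hy : SS β y ≤ lim)
    (h : y = (j + 2) * x + (β * n + m) * p) (s : ℝ) :
    VV β s y = ((j : ℝ) + 2) * VV β s x + (s * n + m) * VV β s p := by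
  have h1 : PN β y = Polynomial.C (j + 2) * PN β x +
      (Polynomial.X * Polynomial.C n + Polynomial.C m) * PN β p := by
    apply uniq β
    · simp only [Polynomial.eval_add, Polynomial.eval_mul, PN_eval, Polynomial.eval_C,
        Polynomial.eval_X]
      exact h
    · rw [PN_eval_one]; omega
    · simp only [Polynomial.eval_add, Polynomial.eval_mul, PN_eval_one, Polynomial.eval_C,
        Polynomial.eval_X, one_mul]
      have e1 : (j + 2) * SS β x ≤ (j + 2) * lim := Nat.mul_le_mul_left _ hx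
      have e2 : (n + m) * SS β p ≤ (n + m) * lim := Nat.mul_le_mul_left _ hp
      have e3 : (j + 2 + n + m) * lim = (j + 2) * lim + (n + m) * lim := by ring
      omega
  have h2 := congrArg (Polynomial.eval₂ (Nat.castRingHom ℝ) s) h1
  simp only [Polynomial.eval₂_add, Polynomial.eval₂_mul, PN_eval₂, Polynomial.eval₂_C,
    Polynomial.eval₂_X] at h2
  rw [h2]
  simp

theorem VV_zero (β : ℕ) (s : ℝ) : VV β s 0 = 0 := by
  rw [VV, Nat.digits_zero, od_nil]

theorem VV_step (β : ℕ) (hβ : 1 < β) (s : ℝ) (N : ℕ) :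
    VV β s N = ((N % β : ℕ) : ℝ) + s * VV β s (N / β) := by
  rcases Nat.eq_zero_or_pos N with h | h
  · subst h; rw [Nat.zero_mod, Nat.zero_div, VV_zero]; simp
  · rw [VV, Nat.digits_def' hβ h, od_cons]
    rfl

theorem VV_nonneg (β : ℕ) (s : ℝ) (hs : 0 ≤ s) (N : ℕ) : 0 ≤ VV β s N := by
  unfold VV
  generalize Nat.digits β N = L
  induction L with
  | nil => rw [od_nil]
  | cons d L ih => rw [od_cons]; positivity

theorem VV_pos (β : ℕ) (hβ : 1 < β) (s : ℝ) (hs : 0 ≤ s) (N : ℕ) (h : 1 ≤ N % β) :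
    0 < VV β s N := by
  rw [VV_step β hβ]
  have h1 : (1 : ℝ) ≤ ((N % β : ℕ) : ℝ) := by exact_mod_cast h
  have h2 := mul_nonneg hs (VV_nonneg β s hs (N / β))
  linarith

theorem SS_zero (β : ℕ) : SS β 0 = 0 := by simp [SS]

theorem SS_step (β : ℕ) (hβ : 1 < β) (N : ℕ) : SS β N = N % β + SS β (N / β) := by
  rcases Nat.eq_zero_or_pos N with h | h
  · subst h; simp [SS]
  · rw [SS, Nat.digits_def' hβ h, List.sum_cons]
    rfl

theorem SS_le (β N : ℕ) : SS β N ≤ N := Nat.digit_sum_le β N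

theorem VV_one (β : ℕ) (hβ : 1 < β) (s : ℝ) : VV β s 1 = 1 := by
  rw [VV_step β hβ, Nat.mod_eq_of_lt hβ, Nat.div_eq_of_lt hβ, VV_zero]
  simp

theorem dig_small (B h x : ℕ) (hB : h ≤ B) (hx : x < 2 ^ B) (h0 : x &&& (2 ^ B - 2 ^ h) = 0) :
    x < 2 ^ h := by
  have h1 := congrArg (· / 2 ^ h) h0
  simp only [Nat.and_div_two_pow, Nat.zero_div] at h1
  have e : 2 ^ B = 2 ^ h * 2 ^ (B - h) := by rw [← pow_add]; congr 1; omega
  have h2 : (2 ^ B - 2 ^ h) / 2 ^ h = 2 ^ (B - h) - 1 := by
    have : 2 ^ B - 2 ^ h = 2 ^ h * (2 ^ (B - h) - 1) := by rw [e, Nat.mul_sub, mul_one]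
    rw [this, Nat.mul_div_cancel_left _ (Nat.two_pow_pos h)]
  rw [h2, Nat.and_two_pow_sub_one_eq_mod, Nat.mod_eq_of_lt] at h1
  · exact (Nat.div_eq_zero_iff_lt (Nat.two_pow_pos h)).1 h1
  · rw [Nat.div_lt_iff_lt_mul (Nat.two_pow_pos h), mul_comm, ← e]; exact hx

theorem mask_spec (B h : ℕ) (hB0 : 1 ≤ B) (hB : h ≤ B) : ∀ (D N : ℕ), N < 2 ^ (B * D) →
    N &&& maskK (2 ^ B - 2 ^ h) (2 ^ B) D = 0 → SS (2 ^ B) N ≤ D * 2 ^ h := by
  intro D
  induction D with
  | zero =>
    intro N h1 _
    have : N = 0 := by simpa using h1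
    subst this
    rw [SS_zero]; omega
  | succ D ih =>
    intro N h1 h2
    have hβ1 : 1 < 2 ^ B := Nat.one_lt_two_pow (by omega)
    have hm : (maskK (2 ^ B - 2 ^ h) (2 ^ B) (D + 1)) % 2 ^ B = 2 ^ B - 2 ^ h := by
      rw [maskK, Nat.add_eq, Nat.mul_eq, Nat.add_mul_mod_self_left, Nat.mod_eq_of_lt]
      have := Nat.two_pow_pos h
      omega
    have hd : (maskK (2 ^ B - 2 ^ h) (2 ^ B) (D + 1)) / 2 ^ B =
        maskK (2 ^ B - 2 ^ h) (2 ^ B) D := by
      rw [maskK, Nat.add_eq, Nat.mul_eq, Nat.add_mul_div_left _ _ (by omega), Nat.div_eq_of_lt, zero_add]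
      have := Nat.two_pow_pos h
      omega
    have e1 := congrArg (· % 2 ^ B) h2
    have e2 := congrArg (· / 2 ^ B) h2
    simp only [Nat.and_mod_two_pow, hm, Nat.zero_mod] at e1
    simp only [Nat.and_div_two_pow, hd, Nat.zero_div] at e2
    have h3 := dig_small B h (N % 2 ^ B) hB (Nat.mod_lt _ (by omega)) e1
    have h4 := ih (N / 2 ^ B) (by
      rw [Nat.div_lt_iff_lt_mul (by omega), ← pow_add]
      exact lt_of_lt_of_eq h1 (by congr 1)) e2
    rw [SS_step _ hβ1 N, Nat.succ_mul]
    omega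

end Pool.Agent.H6.TPU
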