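import Pool.Agent.H6.TPU.Grow

/-!
# The generating series of the leading coefficients

`U = Σ c_N z^N` satisfies `z U' = U (1 + U)^(s + 1)`.
-/

set_option autoImplicit false

namespace Pool.Agent.H6.TPU

open PowerSeries Finset Pool.Agent.H48.TP

/-! ### uniqueness of the eigenseries -/

theorem ode_coeff (h g : PowerSeries ℝ) (y : ℝ) (hh : coeff 0 h = 0)
    (hg : dd g = C y * (h * g)) (n : ℕ) :
    ((n : ℝ) + 1) * coeff (n + 1) g =
      y * ∑ k ∈ range (n + 1), coeff (k + 1) h * coeff (n - k) g := by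
  have h1 := congrArg (coeff (n + 1)) hg
  rw [coeff_dd, PowerSeries.coeff_C_mul, coeff_mul_range, Finset.sum_range_succ', hh, zero_mul,
    add_zero] at h1
  push_cast at h1
  rw [h1]

theorem ode_unique (h f g : PowerSeries ℝ) (y : ℝ) (hh : coeff 0 h = 0)
    (hf : dd f = C y * (h * f)) (hg : dd g = C y * (h * g)) (h0 : coeff 0 f = coeff 0 g) :
    f = g := by
  ext n
  induction n using Nat.strong_induction_on with
  | _ n ih =>
    rcases n with _ | n
    · exact h0
    · have h1 := ode_coeff h f y hh hf n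
      have h2 := ode_coeff h g y hh hg n
      have h3 : ∑ k ∈ range (n + 1), coeff (k + 1) h * coeff (n - k) f =
          ∑ k ∈ range (n + 1), coeff (k + 1) h * coeff (n - k) g := by
        refine Finset.sum_congr rfl fun k _ => ?_
        rw [ih (n - k) (by omega)]
      rw [h3, ← h2] at h1
      exact mul_left_cancel₀ (by positivity : ((n : ℝ) + 1) ≠ 0) h1

theorem hh0 (s : ℕ) : coeff 0 ((1 - X : PowerSeries ℝ) ^ s - 1) = 0 := by
  rw [map_sub, coeff_zero_one_sub_pow, PowerSeries.coeff_zero_one, sub_self]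

theorem psi0 (s : ℕ) (y : ℝ) : coeff 0 (psi s y) = 1 := by rw [coeff_psi, TT_zero]

theorem psi_add (s : ℕ) (y z : ℝ) : psi s y * psi s z = psi s (y + z) := by
  apply ode_unique ((1 - X) ^ s - 1) _ _ (y + z) (hh0 s)
  · rw [dd_mul, dd_psi, dd_psi, map_add]; ring
  · exact dd_psi s (y + z)
  · rw [coeff_mul_range]; simp [psi0]

theorem psi_zero (s : ℕ) : psi s 0 = 1 := by
  apply ode_unique ((1 - X) ^ s - 1) _ _ 0 (hh0 s)
  · exact dd_psi s 0
  · rw [dd_one]; simp
  · rw [psi0]; simp

theorem psi_pow (s k : ℕ) : psi s 1 ^ k = psi s (k : ℝ) := by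
  induction k with
  | zero => simp [psi_zero]
  | succ k ih => rw [pow_succ, ih, psi_add]; push_cast; rfl

/-- the first eigenseries -/
noncomputable def E1 (s : ℕ) : PowerSeries ℝ := X * psi s 1

theorem E1_pow (s k : ℕ) : E1 s ^ k = X ^ k * psi s (k : ℝ) := by
  rw [E1, mul_pow, psi_pow]

theorem hsub (s : ℕ) : HasSubst (E1 s) :=
  HasSubst.of_constantCoeff_zero' (by simp [E1])

theorem coeff_E1_pow (s d N : ℕ) : coeff N (E1 s ^ d) = if d ≤ N then TT s (d : ℝ) (N - d) else 0 := by
  rw [E1_pow, PowerSeries.coeff_X_pow_mul']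
  split_ifs with h
  · rw [coeff_psi]
  · rfl

theorem coeff_subst_E (s : ℕ) (f : PowerSeries ℝ) (N : ℕ) :
    coeff N (f.subst (E1 s)) = ∑ d ∈ range (N + 1), coeff d f * TT s (d : ℝ) (N - d) := by
  rw [PowerSeries.coeff_subst' (hsub s)]
  rw [finsum_eq_sum_of_support_subset (s := range (N + 1))]
  · refine Finset.sum_congr rfl fun d hd => ?_
    rw [Finset.mem_range] at hd
    rw [coeff_E1_pow, if_pos (by omega), smul_eq_mul]
  · intro d hd
    rw [Function.mem_support] at hd
    by_contra hcon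
    apply hd
    rw [Finset.coe_range, Set.mem_Iio, not_lt] at hcon
    rw [coeff_E1_pow, if_neg (by omega), smul_zero]

theorem subst_inj (s : ℕ) (f g : PowerSeries ℝ) (h : f.subst (E1 s) = g.subst (E1 s)) : f = g := by
  ext n
  induction n using Nat.strong_induction_on with
  | _ n ih =>
    have h1 := congrArg (coeff n) h
    rw [coeff_subst_E, coeff_subst_E, Finset.sum_range_succ, Finset.sum_range_succ, Nat.sub_self,
      TT_zero, mul_one, mul_one] at h1
    have h2 : ∑ d ∈ range n, coeff d f * TT s (d : ℝ) (n - d) =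
        ∑ d ∈ range n, coeff d g * TT s (d : ℝ) (n - d) := by
      refine Finset.sum_congr rfl fun d hd => ?_
      rw [ih d (Finset.mem_range.1 hd)]
    linarith

/-- the generating series of the leading coefficients -/
noncomputable def Uz (s : ℕ) : PowerSeries ℝ := PowerSeries.mk (cc s)

theorem coeff_Uz (s N : ℕ) : coeff N (Uz s) = cc s N := by rw [Uz, PowerSeries.coeff_mk]

theorem cc_zero (s : ℕ) : cc s 0 = 0 := by rw [cc]

theorem subst_Uz (s : ℕ) : (Uz s).subst (E1 s) = (X * J : PowerSeries ℝ) := by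
  ext N
  rw [coeff_subst_E, Finset.sum_range_succ', coeff_Uz, cc_zero, zero_mul, add_zero]
  rcases N with _ | N
  · simp
  · rw [PowerSeries.coeff_succ_X_mul, J, PowerSeries.coeff_mk, ← cc_sum s N]
    refine Finset.sum_congr rfl fun k _ => ?_
    rw [coeff_Uz, Nat.add_sub_add_right]

theorem subst_ddUz (s : ℕ) : (dd (Uz s)).subst (E1 s) = W s 1 := by
  ext N
  rw [coeff_subst_E, coeff_W_eq, Finset.sum_range_succ', coeff_dd, Nat.cast_zero, zero_mul,
    zero_mul, add_zero]
  refine Finset.sum_congr rfl fun k _ => ?_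
  rw [coeff_dd, coeff_Uz, pow_one]
  ring

theorem J_eq : (J : PowerSeries ℝ) = 1 + X * J := by
  have h := J_mul
  have h2 : J * (1 - X) + X * J = 1 + X * J := by rw [h]
  rw [← h2]
  ring

theorem dd_J : dd J = X * J * J := by
  have h := congrArg dd J_mul
  rw [dd_mul, dd_one, dd_one_sub] at h
  have h2 : dd J * (1 - X) = X * J := by linear_combination h
  calc dd J = dd J * (J * (1 - X)) := by rw [J_mul, mul_one]
    _ = (dd J * (1 - X)) * J := by ring
    _ = X * J * J := by rw [h2]

theorem W_one (s : ℕ) : W s 1 = (X * J) * (1 + X * J) ^ (s + 1) := by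
  have h1 : dd (X : PowerSeries ℝ) = X := by
    have := dd_X_pow 1
    simpa using this
  rw [← J_eq, W, W, dd_mul, h1, dd_J]
  have h2 : X * J + X * (X * J * J) = X * J * (1 + X * J) := by ring
  rw [h2, ← J_eq, pow_succ]
  ring

theorem ode (s : ℕ) : dd (Uz s) = Uz s * (1 + Uz s) ^ (s + 1) := by
  apply subst_inj s
  rw [subst_ddUz, W_one, PowerSeries.subst_mul (hsub s), PowerSeries.subst_pow (hsub s),
    PowerSeries.subst_add (hsub s), subst_Uz]
  have h1 : ((1 : PowerSeries ℝ)).subst (E1 s) = (1 : PowerSeries ℝ) := by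
    rw [← PowerSeries.coe_substAlgHom (hsub s), map_one]
  rw [h1]

theorem cc_nonneg (s N : ℕ) : 0 ≤ cc s N := by
  rcases Nat.eq_zero_or_pos N with h | h
  · subst h; rw [cc_zero]
  · exact (cc_pos s N h).le

/-- **Growth.** -/
theorem cc_grow (s N : ℕ) (hN : 1 ≤ N) : ((s : ℝ) + 1) * cc s N ≤ cc s (N + 1) := by
  have h := grow s (Uz s) (by rw [coeff_Uz, cc_zero]) (by rw [coeff_Uz, cc_one])
    (fun n => by rw [coeff_Uz]; exact cc_nonneg s n) (ode s) N hN
  rwa [coeff_Uz, coeff_Uz] at h

theorem cc_grow_pow (s y l : ℕ) (hy : 1 ≤ y) : ((s : ℝ) + 1) ^ l * cc s y ≤ cc s (y + l) := by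
  induction l with
  | zero => simp
  | succ l ih =>
    have h := cc_grow s (y + l) (by omega)
    have h2 : ((s : ℝ) + 1) * (((s : ℝ) + 1) ^ l * cc s y) ≤ ((s : ℝ) + 1) * cc s (y + l) :=
      mul_le_mul_of_nonneg_left ih (by positivity)
    rw [pow_succ, show y + (l + 1) = y + l + 1 by ring]
    linarith

end Pool.Agent.H6.TPU
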