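import Pool.Agent.H6.TPU.RunP

/-!
# Elimination with exact division, for one `r`
-/

set_option autoImplicit false

namespace Pool.Agent.H6.TPU

/-- elimination with division by the pivot `p` -/
def elimQ (p a b : ℕ) : List ℕ → List ℕ → (List ℕ → Bool) → Bool
  | [], _, k => k []
  | _ :: _, [], _ => false
  | u :: us, v :: vs, k => app (Nat.mul a v) fun x => app (Nat.mul b u) fun y =>
      cond (Nat.ble y x) (app (Nat.sub x y) fun z => cond (Nat.beq (Nat.mod z p) 0)
        (app (Nat.div z p) fun w => elimQ p a b us vs fun l => k (w :: l)) false) false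

/-- one new row through all stages -/
def stepQ : ℕ → List (List ℕ) → List ℕ → (List (List ℕ) → Bool) → Bool
  | _, _, [], k => k []
  | _, [], b :: vs, k => cond (Nat.ble 1 b) (k [b :: vs]) false
  | _, [] :: _, _ :: _, _ => false
  | p, (a :: us) :: rest, b :: vs, k => cond (Nat.ble 1 b)
      (elimQ p a b us vs fun e => stepQ a rest e fun rest' =>
        k ((b :: vs) :: rest')) false

/-- the next row of the triangle -/
def nextQ (r n : ℕ) : ℕ → ℕ → List ℕ → (List ℕ → Bool) → Bool
  | _, _, [], k => k []
  | j, p, x :: xs, k =>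
      app (Nat.add (Nat.mul (Nat.add j 2) x) (Nat.mul (Nat.sub (Nat.mul r n) j) p))
        fun y => cond (Nat.ble 0 y) (nextQ r n (Nat.add j 1) x xs fun l => k (y :: l)) false

/-- the loop -/
def runQ (r : ℕ) : ℕ → ℕ → List ℕ → List (List ℕ) → Bool
  | 0, _, _, _ => true
  | f + 1, n, row, st => stepQ 1 st row fun st' =>
      match row with
      | [] => true
      | p :: xs => nextQ r n 0 p xs fun l => runQ r f (n + 1) (p :: l) st'

end Pool.Agent.H6.TPU
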