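import Pool.Agent.H6.TPU.RunP

/-!
# Elimination over the polynomials in `s = r - 1` on a segment of rows
-/

set_option autoImplicit false

namespace Pool.Agent.H6.TPU

open Pool.Agent.H48.TP

/-- the row `i + s` from the row `i = n - 1`, without elimination -/
def goP (β X M : ℕ) : ℕ → ℕ → List ℕ → (List ℕ → Bool) → Bool
  | 0, _, row, k => k row
  | f + 1, n, row, k =>
      match row with
      | [] => false
      | p :: xs => nextP β X M n 0 p xs fun l => goP β X M f (n + 1) (p :: l) k

/-- elimination on `f` rows, after `s0` rows without elimination -/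
def segP (B h D C s0 f : ℕ) : Bool :=
  force (2 ^ B) fun β => force (2 ^ (B * D) - 1) fun X => force (maskK (β - 2 ^ h) β D) fun M =>
    goP β X M s0 1 (1 :: List.replicate (C - 1) 0) fun row => runP β X M f (s0 + 1) row []

end Pool.Agent.H6.TPU
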