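import Pool.Agent.H6.TPU.RunQ

/-!
# Elimination with exact division on a segment of rows, for one `r`
-/

set_option autoImplicit false

namespace Pool.Agent.H6.TPU

/-- the row `i + s` from the row `i = n - 1`, without elimination -/
def goQ (r : ℕ) : ℕ → ℕ → List ℕ → (List ℕ → Bool) → Bool
  | 0, _, row, k => k row
  | f + 1, n, row, k =>
      match row with
      | [] => false
      | p :: xs => nextQ r n 0 p xs fun l => goQ r f (n + 1) (p :: l) k

/-- elimination on `f` rows, after `s0` rows without elimination -/
def segQ (r C s0 f : ℕ) : Bool :=
  goQ r s0 1 (1 :: List.replicate (C - 1) 0) fun row => runQ r f (s0 + 1) row []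

end Pool.Agent.H6.TPU
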