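import Pool.Agent.H6.TPU.SegQ

/-!
# The same elimination with bare recursors (less work for the kernel)
-/

set_option autoImplicit false

namespace Pool.Agent.H6.TPU

/-- elimination with division by the pivot `p` -/
noncomputable def elimR (p a b : ℕ) : List ℕ → List ℕ → (List ℕ → Bool) → Bool :=
  fun us => List.rec (motive := fun _ => List ℕ → (List ℕ → Bool) → Bool)
    (fun _ k => k [])
    (fun u _ ih vs k => List.rec (motive := fun _ => Bool) false
      (fun v vs _ =>
        let x := Nat.mul a v
        let y := Nat.mul b u
        Bool.rec (motive := fun _ => Bool) false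
          (let z := Nat.sub x y
           Bool.rec (motive := fun _ => Bool) false
             (let w := Nat.div z p
              ih vs fun l => k (w :: l))
             (Nat.beq (Nat.mod z p) 0))
          (Nat.ble y x)) vs) us

/-- one new row through all stages -/
noncomputable def stepR : List (List ℕ) → ℕ → List ℕ → (List (List ℕ) → Bool) → Bool :=
  fun st => List.rec (motive := fun _ => ℕ → List ℕ → (List (List ℕ) → Bool) → Bool)
    (fun _ new k => List.rec (motive := fun _ => Bool) (k [])
      (fun b vs _ => Bool.rec (motive := fun _ => Bool) false (k [b :: vs]) (Nat.ble 1 b)) new)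
    (fun old _ ih p new k => List.rec (motive := fun _ => Bool) (k [])
      (fun b vs _ => List.rec (motive := fun _ => Bool) false
        (fun a us _ => Bool.rec (motive := fun _ => Bool) false
          (elimR p a b us vs fun e => ih a e fun rest' => k ((b :: vs) :: rest'))
          (Nat.ble 1 b)) old) new) st

/-- the next row of the triangle -/
noncomputable def nextR (r n : ℕ) : List ℕ → ℕ → ℕ → (List ℕ → Bool) → Bool :=
  fun xs => List.rec (motive := fun _ => ℕ → ℕ → (List ℕ → Bool) → Bool)
    (fun _ _ k => k [])
    (fun x _ ih j p k =>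
      let y := Nat.add (Nat.mul (Nat.add j 2) x) (Nat.mul (Nat.sub (Nat.mul r n) j) p)
      Bool.rec (motive := fun _ => Bool) false
        (ih (Nat.add j 1) x fun l => k (y :: l)) (Nat.ble 0 y)) xs

/-- the loop -/
noncomputable def runR (r : ℕ) : ℕ → ℕ → List ℕ → List (List ℕ) → Bool :=
  fun f => Nat.rec (motive := fun _ => ℕ → List ℕ → List (List ℕ) → Bool)
    (fun _ _ _ => true)
    (fun _ ih n row st => stepR st 1 row fun st' =>
      List.rec (motive := fun _ => Bool) true
        (fun p xs _ => nextR r n xs 0 p fun l => ih (Nat.add n 1) (p :: l) st') row) f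

/-- the rows without elimination -/
noncomputable def goR (r : ℕ) : ℕ → ℕ → List ℕ → (List ℕ → Bool) → Bool :=
  fun f => Nat.rec (motive := fun _ => ℕ → List ℕ → (List ℕ → Bool) → Bool)
    (fun _ row k => k row)
    (fun _ ih n row k => List.rec (motive := fun _ => Bool) false
        (fun p xs _ => nextR r n xs 0 p fun l => ih (Nat.add n 1) (p :: l) k) row) f

/-- elimination on `f` rows, after `s0` rows without elimination -/
noncomputable def segR (r C s0 f : ℕ) : Bool :=
  goR r s0 1 (1 :: List.replicate (C - 1) 0) fun row => runR r f (Nat.add s0 1) row []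

theorem elimR_eq (p a b : ℕ) : ∀ (us vs : List ℕ) (k : List ℕ → Bool),
    elimR p a b us vs k = elimQ p a b us vs k := by
  intro us
  induction us with
  | nil => intro vs k; rfl
  | cons u us ih =>
    intro vs k
    rcases vs with _ | ⟨v, vs⟩
    · rfl
    · rw [elimQ]
      simp only [app]
      rw [← ih vs]
      show Bool.rec (motive := fun _ => Bool) false (Bool.rec (motive := fun _ => Bool) false
        (elimR p a b us vs fun l => k (Nat.div (Nat.sub (Nat.mul a v) (Nat.mul b u)) p :: l))
        (Nat.beq (Nat.mod (Nat.sub (Nat.mul a v) (Nat.mul b u)) p) 0))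
        (Nat.ble (Nat.mul b u) (Nat.mul a v)) = _
      cases Nat.ble (Nat.mul b u) (Nat.mul a v)
      · rfl
      · cases Nat.beq (Nat.mod (Nat.sub (Nat.mul a v) (Nat.mul b u)) p) 0 <;> rfl

theorem stepR_eq : ∀ (st : List (List ℕ)) (p : ℕ) (new : List ℕ) (k : List (List ℕ) → Bool),
    stepR st p new k = stepQ p st new k := by
  intro st
  induction st with
  | nil =>
    intro p new k
    rcases new with _ | ⟨b, vs⟩
    · rfl
    · rw [stepQ]
      show Bool.rec (motive := fun _ => Bool) false (k [b :: vs]) (Nat.ble 1 b) = _
      cases Nat.ble 1 b <;> rfl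
  | cons old rest ih =>
    intro p new k
    rcases new with _ | ⟨b, vs⟩
    · cases old <;> rfl
    · rcases old with _ | ⟨a, us⟩
      · rfl
      · rw [stepQ]
        show Bool.rec (motive := fun _ => Bool) false
          (elimR p a b us vs fun e => stepR rest a e fun rest' => k ((b :: vs) :: rest'))
          (Nat.ble 1 b) = _
        rw [elimR_eq]
        simp only [ih]
        cases Nat.ble 1 b <;> rfl

theorem nextR_eq (r n : ℕ) : ∀ (xs : List ℕ) (j p : ℕ) (k : List ℕ → Bool),
    nextR r n xs j p k = nextQ r n j p xs k := by
  intro xs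
  induction xs with
  | nil => intro j p k; rfl
  | cons x xs ih =>
    intro j p k
    rw [nextQ]
    simp only [app]
    rw [← ih]
    show Bool.rec (motive := fun _ => Bool) false (nextR r n xs (Nat.add j 1) x fun l => k
      (Nat.add (Nat.mul (Nat.add j 2) x) (Nat.mul (Nat.sub (Nat.mul r n) j) p) :: l))
      (Nat.ble 0 (Nat.add (Nat.mul (Nat.add j 2) x) (Nat.mul (Nat.sub (Nat.mul r n) j) p))) = _
    cases Nat.ble 0 (Nat.add (Nat.mul (Nat.add j 2) x) (Nat.mul (Nat.sub (Nat.mul r n) j) p)) <;>
      rfl

theorem runR_eq (r : ℕ) : ∀ (f n : ℕ) (row : List ℕ) (st : List (List ℕ)),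
    runR r f n row st = runQ r f n row st := by
  intro f
  induction f with
  | zero => intro n row st; rfl
  | succ f ih =>
    intro n row st
    rw [runQ]
    show (stepR st 1 row fun st' => List.rec (motive := fun _ => Bool) true
        (fun p xs _ => nextR r n xs 0 p fun l => runR r f (Nat.add n 1) (p :: l) st') row) = _
    rw [stepR_eq]
    congr 1
    funext st'
    rcases row with _ | ⟨p, xs⟩
    · rfl
    · show (nextR r n xs 0 p fun l => runR r f (Nat.add n 1) (p :: l) st') = _
      rw [nextR_eq]
      simp only [ih]

theorem goR_eq (r : ℕ) : ∀ (f n : ℕ) (row : List ℕ) (k : List ℕ → Bool),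
    goR r f n row k = goQ r f n row k := by
  intro f
  induction f with
  | zero => intro n row k; rfl
  | succ f ih =>
    intro n row k
    rcases row with _ | ⟨p, xs⟩
    · rfl
    · rw [goQ]
      show (nextR r n xs 0 p fun l => goR r f (Nat.add n 1) (p :: l) k) = _
      rw [nextR_eq]
      simp only [ih]

theorem segR_eq (r C s0 f : ℕ) : segR r C s0 f = segQ r C s0 f := by
  unfold segR segQ
  rw [goR_eq]
  simp only [runR_eq]

end Pool.Agent.H6.TPU
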