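import Pool.Agent.H6.TPU.Kron
import Pool.Agent.H6.TPU.RunP
import Pool.Agent.H6.TPU.Deep
import Pool.Agent.H48.TP.Snd

/-!
# Soundness of the elimination over the polynomials in `s = r - 1`
-/

set_option autoImplicit false

namespace Pool.Agent.H6.TPU

open Finset Pool.Agent.H48.TP Pool.Agent.H37.TPC

section

variable (β lim : ℕ) (s : ℝ)

/-- a list represents the start of a real sequence -/
def RpP : List ℕ → (ℕ → ℝ) → Prop
  | [], _ => True
  | x :: xs, w => VV β s x = w 0 ∧ SS β x ≤ lim ∧ RpP xs fun k => w (k + 1)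

variable {β lim : ℕ} {s : ℝ}

theorem RpP.congr : ∀ {l : List ℕ} {u v : ℕ → ℝ}, (∀ k, u k = v k) → RpP β lim s l u →
    RpP β lim s l v := by
  intro l u v h hl
  have : u = v := funext h
  rwa [← this]

theorem okN_true {X M w : ℕ} {c : Bool} (h : okN X M w c = true) :
    w ≤ X ∧ w &&& M = 0 ∧ c = true := by
  unfold okN at h
  obtain ⟨h1, h2⟩ := Pool.Agent.H48.TP.cond_true h
  obtain ⟨h3, h4⟩ := Pool.Agent.H48.TP.cond_true h2
  exact ⟨Nat.le_of_ble_eq_true h1, Nat.eq_of_beq_eq_true h3, h4⟩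

/-- the mask and the bound control the digit sum -/
def Good (β lim X M : ℕ) : Prop := ∀ w : ℕ, w ≤ X → w &&& M = 0 → SS β w ≤ lim

theorem okN_spec {X M w : ℕ} (hG : Good β lim X M) {c : Bool} (h : okN X M w c = true) :
    SS β w ≤ lim ∧ c = true := by
  obtain ⟨h1, h2, h3⟩ := okN_true h
  exact ⟨hG w h1 h2, h3⟩

theorem elimP_spec (hβ : 2 * (lim * lim) < β) (X M p a b : ℕ) (hG : Good β lim X M)
    (hp : SS β p ≤ lim)
    (ha : SS β a ≤ lim) (hb : SS β b ≤ lim) (hp0 : VV β s p ≠ 0) :
    ∀ (us vs : List ℕ) (k : List ℕ → Bool) (u v : ℕ → ℝ),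
    RpP β lim s us u → RpP β lim s vs v → elimP X M p a b us vs k = true →
    ∃ l, l.length = us.length ∧
      RpP β lim s l (fun i => (1 / VV β s p) * (VV β s a * v i - VV β s b * u i)) ∧
      k l = true := by
  intro us
  induction us with
  | nil =>
    intro vs k u v _ _ h
    exact ⟨[], rfl, trivial, h⟩
  | cons x us ih =>
    intro vs k u v hu hv h
    rcases vs with _ | ⟨t, vs⟩
    · exact absurd h (by simp [elimP])
    · rw [elimP] at h
      simp only [app] at h
      obtain ⟨h1, h2⟩ := Pool.Agent.H48.TP.cond_true h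
      obtain ⟨h3, h4⟩ := Pool.Agent.H48.TP.cond_true h2
      obtain ⟨h5, h6⟩ := okN_spec hG h4
      have h1' : b * x ≤ a * t := Nat.le_of_ble_eq_true h1
      have h3' : (a * t - b * x) % p = 0 := Nat.eq_of_beq_eq_true h3
      have h7 : p * ((a * t - b * x) / p) + b * x = a * t := by
        have := Nat.div_add_mod (a * t - b * x) p
        rw [h3', add_zero] at this
        omega
      obtain ⟨l, hl, hr, hk⟩ := ih vs _ _ _ hu.2.2 hv.2.2 h6
      have h5' : SS β ((a * t - b * x) / p) ≤ lim := h5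
      have h8 := kron β lim hβ p ((a * t - b * x) / p) b x a t hp h5' hb hu.2.1 ha hv.2.1 h7 s
      refine ⟨(a * t - b * x) / p :: l, by simp [hl], ⟨?_, h5', hr⟩, hk⟩
      show VV β s ((a * t - b * x) / p) = 1 / VV β s p * (VV β s a * v 0 - VV β s b * u 0)
      rw [← hu.1, ← hv.1, ← h8, add_sub_cancel_right]
      field_simp

/-- the invariant of the stages -/
def InvP (β lim : ℕ) (s : ℝ) : ℕ → (ℕ → ℕ → ℝ) → ℕ → List (List ℕ) → Prop
  | 0, _, _, _ => True
  | _ + 1, _, 0, st => st = []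
  | C + 1, a, n + 1, st => ∃ old rest, st = old :: rest ∧ old.length = C + 1 ∧
      (∃ c : ℝ, 0 < c ∧ RpP β lim s old fun k => c * a n k) ∧ (∀ m, m ≤ n → 0 < a m 0) ∧
      InvP β lim s C (el a) n rest

theorem InvP_nil (C : ℕ) (a : ℕ → ℕ → ℝ) : InvP β lim s C a 0 [] := by
  cases C
  · trivial
  · rfl

theorem stepP_spec (hβ : 2 * (lim * lim) < β) (hβ1 : 1 < β) (hs : 0 ≤ s) (X M : ℕ)
    (hG : Good β lim X M) :
    ∀ (C : ℕ) (a : ℕ → ℕ → ℝ) (n p : ℕ) (st : List (List ℕ)) (new : List ℕ)
    (k : List (List ℕ) → Bool), SS β p ≤ lim → 0 < VV β s p → InvP β lim s C a n st →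
    new.length = C →
    (∃ c : ℝ, 0 < c ∧ RpP β lim s new fun i => c * a n i) → stepP β X M p st new k = true →
    ∃ st', InvP β lim s C a (n + 1) st' ∧ k st' = true := by
  intro C
  induction C with
  | zero =>
    intro a n p st new k _ _ _ hlen _ h
    have : new = [] := List.length_eq_zero_iff.1 hlen
    subst this
    refine ⟨[], trivial, ?_⟩
    cases st <;> exact h
  | succ C ih =>
    intro a n p st new k hSp hVp hI hlen hnew h
    rcases new with _ | ⟨b, vs⟩
    · exact absurd hlen (by simp)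
    have hvs : vs.length = C := by simpa using hlen
    obtain ⟨c, hc, hR⟩ := hnew
    rcases n with _ | n
    · have hst : st = [] := hI
      subst hst
      rw [stepP] at h
      obtain ⟨h1, h2⟩ := Pool.Agent.H48.TP.cond_true h
      refine ⟨[b :: vs], ⟨b :: vs, [], rfl, hlen, ⟨c, hc, hR⟩, ?_, InvP_nil C _⟩, h2⟩
      intro m hm
      have hm0 : m = 0 := Nat.le_zero.1 hm
      subst hm0
      have h3 : 1 ≤ b % β := Nat.le_of_ble_eq_true h1
      have hR1 : VV β s b = c * a 0 0 := hR.1
      have h4 : (0 : ℝ) < c * a 0 0 := by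
        rw [← hR1]; exact VV_pos β hβ1 s hs b h3
      exact (mul_pos_iff_of_pos_left hc).1 h4
    · obtain ⟨old, rest, hst, hold, ⟨c', hc', hR'⟩, hpos, hI'⟩ := hI
      subst hst
      rcases old with _ | ⟨a0, us⟩
      · exact absurd hold (by simp)
      have hus : us.length = C := by simpa using hold
      rw [stepP] at h
      obtain ⟨h1, h2⟩ := Pool.Agent.H48.TP.cond_true h
      have h3 : 1 ≤ b % β := Nat.le_of_ble_eq_true h1
      have hR1 : VV β s b = c * a (n + 1) 0 := hR.1
      have h4 : (0 : ℝ) < c * a (n + 1) 0 := by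
        rw [← hR1]; exact VV_pos β hβ1 s hs b h3
      have h5 : 0 < a (n + 1) 0 := (mul_pos_iff_of_pos_left hc).1 h4
      have h6 : 0 < a n 0 := hpos n le_rfl
      have e2 : VV β s a0 = c' * a n 0 := hR'.1
      have ha0 : 0 < VV β s a0 := by rw [e2]; positivity
      obtain ⟨e, he, hRe, h7⟩ := elimP_spec hβ X M p a0 b hG hSp hR'.2.1 hR.2.1 hVp.ne' us vs _ _ _
        hR'.2.2 hR.2.2 h2
      obtain ⟨rest', hI2, hk⟩ := ih (el a) n a0 rest e _ hR'.2.1 ha0 hI' (by omega)
        ⟨(1 / VV β s p) * (c * c' * a n 0 * a (n + 1) 0), by positivity, RpP.congr (fun i => by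
          rw [hR1, e2, el]
          field_simp) hRe⟩ h7
      refine ⟨(b :: vs) :: rest', ⟨b :: vs, rest', rfl, hlen, ⟨c, hc, hR⟩, ?_, hI2⟩, hk⟩
      intro m hm
      rcases Nat.lt_or_ge m (n + 1) with h9 | h9
      · exact hpos m (by omega)
      · have : m = n + 1 := by omega
        subst this
        exact h5

theorem InvP_pos : ∀ (C : ℕ) (a : ℕ → ℕ → ℝ) (R : ℕ) (st : List (List ℕ)),
    InvP β lim s C a R st →
    ∀ K m, K ≤ C → m + K ≤ R → 0 < (Matrix.of fun i l : Fin K => a (m + i) l).det := by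
  intro C
  induction C with
  | zero =>
    intro a R st _ K m hK _
    have : K = 0 := by omega
    subst this
    simp
  | succ C ih =>
    intro a R st hI K m hK hm
    rcases K with _ | K
    · simp
    rcases R with _ | R
    · omega
    obtain ⟨old, rest, _, _, _, hpos, hI'⟩ := hI
    have hne : ∀ i : Fin (K + 1), 0 < a (m + (i : ℕ)) 0 := fun i => hpos _ (by omega)
    rw [red a K (fun i : Fin (K + 1) => m + (i : ℕ)) (fun i => (hne i).ne')]
    apply mul_pos (Finset.prod_pos fun i _ => hne i)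
    have h1 := ih (el a) R rest hI' K m (by omega) (by omega)
    refine lt_of_lt_of_eq h1 ?_
    congr 1

theorem nextP_spec (hl : lim < β) (X M n : ℕ) (hG : Good β lim X M) (a : ℕ → ℝ) (b : ℕ → ℝ)
    (hz : ∀ j, n < j → a j = 0)
    (hab : ∀ j : ℕ, b (j + 1) = ((j : ℝ) + 2) * a (j + 1) + ((s + 1) * n - j) * a j) :
    ∀ (xs : List ℕ) (j p : ℕ) (k : List ℕ → Bool), (j + xs.length + 2 + 2 * n) * lim < β →
      VV β s p = a j → SS β p ≤ lim →
      RpP β lim s xs (fun i => a (j + 1 + i)) → nextP β X M n j p xs k = true →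
      ∃ l, l.length = xs.length ∧ RpP β lim s l (fun i => b (j + 1 + i)) ∧ k l = true := by
  intro xs
  induction xs with
  | nil =>
    intro j p k _ _ _ _ h
    exact ⟨[], rfl, trivial, h⟩
  | cons x xs ih =>
    intro j p k hb hp hSp hR h
    rw [nextP, app] at h
    obtain ⟨h5, h6⟩ := okN_spec hG h
    have hx : VV β s x = a (j + 1) := hR.1
    have hlen : (x :: xs).length = xs.length + 1 := rfl
    change nextP β X M n (j + 1) x xs _ = true at h6
    change SS β ((j + 2) * x + (β * n + (n - j)) * p) ≤ lim at h5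
    obtain ⟨l, hl', hr, hk⟩ := ih (j + 1) x _ (by
      refine lt_of_le_of_lt ?_ hb
      apply Nat.mul_le_mul_right
      rw [hlen]; omega) hx hR.2.1 (RpP.congr (fun i => by
      show a (j + 1 + (i + 1)) = a (j + 1 + 1 + i)
      congr 1; omega) hR.2.2) h6
    have h8 := kron_next β lim n (n - j) j x p ((j + 2) * x + (β * n + (n - j)) * p) (by
      refine lt_of_le_of_lt ?_ hb
      apply Nat.mul_le_mul_right
      omega) hl hR.2.1 hSp h5 rfl s
    refine ⟨((j + 2) * x + (β * n + (n - j)) * p) :: l, by simp [hl'], ⟨?_, h5,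
      RpP.congr (fun i => by
      show b (j + 1 + 1 + i) = b (j + 1 + (i + 1))
      congr 1; omega) hr⟩, hk⟩
    simp only [add_zero]
    rw [hab, h8, hx, hp]
    congr 1
    rcases Nat.lt_or_ge n j with h1 | h1
    · rw [hz j h1]; simp
    · rw [Nat.cast_sub h1]; ring

end

theorem runP_spec {β lim : ℕ} (hβ : 2 * (lim * lim) < β) (hβ1 : 1 < β) (hl : lim < β)
    (h1l : 1 ≤ lim) (X M s C : ℕ) (hG : Good β lim X M) (E : ℕ → ℕ → ℤ) (hE : IsE (s + 1) E) :
    ∀ (f i : ℕ) (row : List ℕ) (st : List (List ℕ)), row.length = C → 1 ≤ C →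
      (C + 2 + 2 * (i + f)) * lim < β →
      RpP β lim s row (fun k => shE E i k) → InvP β lim s C (shE E) i st →
      runP β X M f (i + 1) row st = true →
      ∃ st', InvP β lim s C (shE E) (i + f) st' := by
  intro f
  induction f with
  | zero =>
    intro i row st _ _ _ _ hI _
    exact ⟨st, hI⟩
  | succ f ih =>
    intro i row st hlen hC hB hR hI h
    rw [runP] at h
    have hS1 : SS β 1 ≤ lim := (SS_le β 1).trans h1l
    obtain ⟨st', hI', h1⟩ := stepP_spec hβ hβ1 (Nat.cast_nonneg s) X M hG C (shE E) i 1 st row _ hS1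
      (by rw [VV_one β hβ1]; exact one_pos) hI hlen
      ⟨1, one_pos, RpP.congr (fun k => (one_mul _).symm) hR⟩ h
    rcases row with _ | ⟨p, xs⟩
    · simp at hlen; omega
    · have hlen' : xs.length + 1 = C := by simpa using hlen
      obtain ⟨l, hl2, hRl, h2⟩ := nextP_spec hl X M (i + 1) hG (fun k => shE E i k)
        (fun k => shE E (i + 1) k)
        (fun j hj => by
          have h3 : i < j := by omega
          unfold shE
          rw [hE.tri i j h3]
          simp)
        (fun j => by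
          unfold shE
          rw [hE.hs]
          push_cast
          ring) xs 0 p _ (by
          refine lt_of_le_of_lt ?_ hB
          apply Nat.mul_le_mul_right
          omega) hR.1 hR.2.1 (RpP.congr (fun k => by
          show shE E i (k + 1) = shE E i (0 + 1 + k)
          congr 1; omega) hR.2.2) h1
      have h4 : RpP β lim s (p :: l) (fun k => shE E (i + 1) k) := by
        refine ⟨?_, hR.2.1, RpP.congr (fun k => by
          show shE E (i + 1) (0 + 1 + k) = shE E (i + 1) (k + 1)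
          congr 1; omega) hRl⟩
        have h6 : VV β s p = shE E i 0 := hR.1
        show VV β s p = shE E (i + 1) 0
        rw [h6]
        unfold shE
        rw [hE.hc (i + 1)]
      obtain ⟨st2, h5⟩ := ih (i + 1) (p :: l) st' (by simpa [hl2] using hlen') hC (by
        refine lt_of_le_of_lt ?_ hB
        apply Nat.mul_le_mul_right
        omega) h4 hI' h2
      exact ⟨st2, by rwa [show i + (f + 1) = i + 1 + f by omega]⟩

theorem RpP_one {r : ℕ} {E : ℕ → ℕ → ℤ} (hE : IsE r E) {β lim : ℕ} (s : ℝ) (hβ1 : 1 < β)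
    (h1l : 1 ≤ lim) (c : ℕ) :
    RpP β lim s (1 :: List.replicate c 0) (fun k => shE E 0 k) := by
  refine ⟨?_, (SS_le β 1).trans h1l, ?_⟩
  · show VV β s 1 = shE E 0 0
    unfold shE
    rw [hE.hc, hE.h00, VV_one β hβ1]
    simp
  · have h1 : ∀ k, shE E 0 (k + 1) = 0 := by
      intro k
      unfold shE
      rw [hE.tri 0 (k + 1) (by omega)]
      simp
    have h2 : ∀ (c : ℕ) (w : ℕ → ℝ), (∀ k, w k = 0) → RpP β lim s (List.replicate c 0) w := by
      intro c
      induction c with
      | zero => intro w _; trivial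
      | succ c ih =>
        intro w hw
        rw [List.replicate_succ]
        exact ⟨by rw [hw, VV_zero], by rw [SS_zero]; omega, ih _ fun k => hw _⟩
    exact h2 c _ h1

/-- **First columns, all `r` at once.** If the elimination over the polynomials in `r - 1` succeeds
on the first `R` rows and the numerical condition holds from row `n1`, then the first `C` columns
are totally positive for every `r`. -/
theorem first_columnsP (B h D C R n1 : ℕ) (hC : 1 ≤ C) (hR : n1 + C ≤ R + 1) (hD : 1 ≤ D)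
    (hB : 2 * h + 1 ≤ B) (hDB : 2 * (D * D) < 2 ^ (B - 2 * h))
    (hbig : (C + 2 + 2 * R) * D < 2 ^ (B - h))
    (hrun : chkP B h D C R = true)
    (hcond : ∀ K, 1 ≤ K → K ≤ C → 2 * K * (K + 1) * (n1 + K * K) * (K - 1) ^ n1 ≤ K ^ n1)
    (r : ℕ) (hr : 1 ≤ r) (E : ℕ → ℕ → ℤ) (hE : IsE r E) :
    (∀ m : ℕ, ∀ f g : Fin m → ℕ, StrictMono f → StrictMono g → (∀ j, g j < C) →
      0 ≤ Matrix.det (Matrix.of fun i j => E (f i) (g j))) ∧
    (∀ n K : ℕ, K ≤ C → 0 < Matrix.det (Matrix.of fun i j : Fin K => E (n + i + 1) j)) := by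
  obtain ⟨s, rfl⟩ : ∃ s, r = s + 1 := ⟨r - 1, by omega⟩
  have hpow : 1 ≤ 2 ^ h := Nat.one_le_two_pow
  have h1l : 1 ≤ D * 2 ^ h := Nat.mul_pos hD hpow
  have hβe : 2 ^ B = 2 ^ (B - 2 * h) * (2 ^ h * 2 ^ h) := by
    rw [← pow_add, ← pow_add]; congr 1; omega
  have hβ : 2 * ((D * 2 ^ h) * (D * 2 ^ h)) < 2 ^ B := by
    rw [hβe]
    calc 2 * ((D * 2 ^ h) * (D * 2 ^ h)) = 2 * (D * D) * (2 ^ h * 2 ^ h) := by ring
      _ < 2 ^ (B - 2 * h) * (2 ^ h * 2 ^ h) :=
        Nat.mul_lt_mul_of_pos_right hDB (Nat.mul_pos hpow hpow)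
  have hsq : 1 ≤ (D * 2 ^ h) * (D * 2 ^ h) := Nat.mul_pos h1l h1l
  have hβ1 : 1 < 2 ^ B := by omega
  have hbig' : (C + 2 + 2 * R) * (D * 2 ^ h) < 2 ^ B := by
    have e : 2 ^ B = 2 ^ (B - h) * 2 ^ h := by rw [← pow_add]; congr 1; omega
    rw [e, ← mul_assoc]
    exact Nat.mul_lt_mul_of_pos_right hbig hpow
  have hl : D * 2 ^ h < 2 ^ B := by
    refine lt_of_le_of_lt ?_ hbig'
    exact Nat.le_mul_of_pos_left _ (by omega)
  have hG : Good (2 ^ B) (D * 2 ^ h) (2 ^ (B * D) - 1) (maskK (2 ^ B - 2 ^ h) (2 ^ B) D) := by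
    intro w h1 h2
    refine mask_spec B h (by omega) (by omega) D w ?_ h2
    have := Nat.two_pow_pos (B * D)
    omega
  have hrun' : runP (2 ^ B) (2 ^ (B * D) - 1) (maskK (2 ^ B - 2 ^ h) (2 ^ B) D) R 1
      (1 :: List.replicate (C - 1) 0) [] = true := by
    unfold chkP at hrun
    simp only [force_eq] at hrun
    exact hrun
  have hini : ∀ K n, K ≤ C → 0 < ini (shE E) K n := by
    intro K n hK
    rcases Nat.eq_zero_or_pos K with h0 | h0
    · subst h0
      simp [ini]
    rcases Nat.lt_or_ge (n + 1) n1 with h' | h'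
    · obtain ⟨st', hI⟩ := runP_spec hβ hβ1 hl h1l _ _ s C hG E hE R 0 _ [] (by simp; omega) hC
        (by simpa using hbig') (RpP_one hE s hβ1 h1l (C - 1)) (InvP_nil C _) hrun'
      rw [zero_add] at hI
      exact InvP_pos C (shE E) R st' hI K n hK (by omega)
    · rw [ini_cast]
      have c1 := cond_of_nat 1 K K n1 h0 (by
        have := hcond K h0 hK
        rw [mul_one]
        exact this)
      rw [Nat.cast_one, mul_one] at c1
      have key := deep_condU (s + 1) K K n1 hr h0 c1 E hE le_rfl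
        (fun i : Fin K => n + 1 + (i : ℕ)) (fun j : Fin K => (j : ℕ))
        (fun i j hij => by
          have : (i : ℕ) < j := hij
          show n + 1 + (i : ℕ) < n + 1 + (j : ℕ)
          omega)
        (fun i j hij => hij) (fun i => by show n1 ≤ n + 1 + (i : ℕ); omega) (fun j => j.2)
      exact_mod_cast key
  refine ⟨redC hE C hini, fun n K hK => ?_⟩
  have h1 := hini K n hK
  rw [ini_cast] at h1
  have h2 : (Matrix.of fun i j : Fin K => E (n + i + 1) j) =
      Matrix.of fun i j : Fin K => E (n + 1 + i) j := by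
    ext i j
    simp only [Matrix.of_apply]
    congr 1
    omega
  rw [h2]
  exact_mod_cast h1

end Pool.Agent.H6.TPU
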