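import Pool.Agent.H6.TPU.SndP
import Pool.Agent.H6.TPU.RunQ

/-!
# Soundness of the elimination with exact division, for one `r`
-/

set_option autoImplicit false

namespace Pool.Agent.H6.TPU

open Finset Pool.Agent.H48.TP Pool.Agent.H37.TPC

/-- a list represents the start of a real sequence -/
def RpQ : List ℕ → (ℕ → ℝ) → Prop
  | [], _ => True
  | x :: xs, w => (x : ℝ) = w 0 ∧ RpQ xs fun k => w (k + 1)

theorem RpQ.congr : ∀ {l : List ℕ} {u v : ℕ → ℝ}, (∀ k, u k = v k) → RpQ l u → RpQ l v := by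
  intro l u v h hl
  have : u = v := funext h
  rwa [← this]

theorem elimQ_spec (p a b : ℕ) (hp0 : (p : ℝ) ≠ 0) :
    ∀ (us vs : List ℕ) (k : List ℕ → Bool) (u v : ℕ → ℝ),
    RpQ us u → RpQ vs v → elimQ p a b us vs k = true →
    ∃ l, l.length = us.length ∧
      RpQ l (fun i => (1 / (p : ℝ)) * ((a : ℝ) * v i - (b : ℝ) * u i)) ∧ k l = true := by
  intro us
  induction us with
  | nil =>
    intro vs k u v _ _ h
    exact ⟨[], rfl, trivial, h⟩
  | cons x us ih =>
    intro vs k u v hu hv h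
    rcases vs with _ | ⟨t, vs⟩
    · exact absurd h (by simp [elimQ])
    · rw [elimQ] at h
      simp only [app] at h
      obtain ⟨h1, h2⟩ := Pool.Agent.H48.TP.cond_true h
      obtain ⟨h3, h4⟩ := Pool.Agent.H48.TP.cond_true h2
      have h1' : b * x ≤ a * t := Nat.le_of_ble_eq_true h1
      have h3' : (a * t - b * x) % p = 0 := Nat.eq_of_beq_eq_true h3
      have h7 : p * ((a * t - b * x) / p) + b * x = a * t := by
        have := Nat.div_add_mod (a * t - b * x) p
        rw [h3', add_zero] at this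
        omega
      obtain ⟨l, hl, hr, hk⟩ := ih vs _ _ _ hu.2 hv.2 h4
      have h8 : (p : ℝ) * (((a * t - b * x) / p : ℕ) : ℝ) + (b : ℝ) * x = (a : ℝ) * t := by
        exact_mod_cast h7
      refine ⟨(a * t - b * x) / p :: l, by simp [hl], ⟨?_, hr⟩, hk⟩
      show (((a * t - b * x) / p : ℕ) : ℝ) = 1 / (p : ℝ) * ((a : ℝ) * v 0 - (b : ℝ) * u 0)
      rw [← hu.1, ← hv.1, ← h8, add_sub_cancel_right]
      field_simp

/-- the invariant of the stages -/
def InvQ : ℕ → (ℕ → ℕ → ℝ) → ℕ → List (List ℕ) → Prop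
  | 0, _, _, _ => True
  | _ + 1, _, 0, st => st = []
  | C + 1, a, n + 1, st => ∃ old rest, st = old :: rest ∧ old.length = C + 1 ∧
      (∃ c : ℝ, 0 < c ∧ RpQ old fun k => c * a n k) ∧ (∀ m, m ≤ n → 0 < a m 0) ∧
      InvQ C (el a) n rest

theorem InvQ_nil (C : ℕ) (a : ℕ → ℕ → ℝ) : InvQ C a 0 [] := by
  cases C
  · trivial
  · rfl

theorem stepQ_spec : ∀ (C : ℕ) (a : ℕ → ℕ → ℝ) (n p : ℕ) (st : List (List ℕ)) (new : List ℕ)
    (k : List (List ℕ) → Bool), 0 < (p : ℝ) → InvQ C a n st → new.length = C →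
    (∃ c : ℝ, 0 < c ∧ RpQ new fun i => c * a n i) → stepQ p st new k = true →
    ∃ st', InvQ C a (n + 1) st' ∧ k st' = true := by
  intro C
  induction C with
  | zero =>
    intro a n p st new k _ _ hlen _ h
    have : new = [] := List.length_eq_zero_iff.1 hlen
    subst this
    refine ⟨[], trivial, ?_⟩
    cases st <;> exact h
  | succ C ih =>
    intro a n p st new k hVp hI hlen hnew h
    rcases new with _ | ⟨b, vs⟩
    · exact absurd hlen (by simp)
    have hvs : vs.length = C := by simpa using hlen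
    obtain ⟨c, hc, hR⟩ := hnew
    rcases n with _ | n
    · have hst : st = [] := hI
      subst hst
      rw [stepQ] at h
      obtain ⟨h1, h2⟩ := Pool.Agent.H48.TP.cond_true h
      refine ⟨[b :: vs], ⟨b :: vs, [], rfl, hlen, ⟨c, hc, hR⟩, ?_, InvQ_nil C _⟩, h2⟩
      intro m hm
      have hm0 : m = 0 := Nat.le_zero.1 hm
      subst hm0
      have h3 : 0 < b := Nat.le_of_ble_eq_true h1
      have hR1 : (b : ℝ) = c * a 0 0 := hR.1
      have h4 : (0 : ℝ) < c * a 0 0 := by
        rw [← hR1]; exact_mod_cast h3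
      exact (mul_pos_iff_of_pos_left hc).1 h4
    · obtain ⟨old, rest, hst, hold, ⟨c', hc', hR'⟩, hpos, hI'⟩ := hI
      subst hst
      rcases old with _ | ⟨a0, us⟩
      · exact absurd hold (by simp)
      have hus : us.length = C := by simpa using hold
      rw [stepQ] at h
      obtain ⟨h1, h2⟩ := Pool.Agent.H48.TP.cond_true h
      have h3 : 0 < b := Nat.le_of_ble_eq_true h1
      have hR1 : (b : ℝ) = c * a (n + 1) 0 := hR.1
      have h4 : (0 : ℝ) < c * a (n + 1) 0 := by
        rw [← hR1]; exact_mod_cast h3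
      have h5 : 0 < a (n + 1) 0 := (mul_pos_iff_of_pos_left hc).1 h4
      have h6 : 0 < a n 0 := hpos n le_rfl
      have e2 : (a0 : ℝ) = c' * a n 0 := hR'.1
      have ha0 : (0 : ℝ) < (a0 : ℝ) := by rw [e2]; positivity
      obtain ⟨e, he, hRe, h7⟩ := elimQ_spec p a0 b hVp.ne' us vs _ _ _ hR'.2 hR.2 h2
      obtain ⟨rest', hI2, hk⟩ := ih (el a) n a0 rest e _ ha0 hI' (by omega)
        ⟨(1 / (p : ℝ)) * (c * c' * a n 0 * a (n + 1) 0), by positivity, RpQ.congr (fun i => by
          rw [hR1, e2, el]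
          field_simp) hRe⟩ h7
      refine ⟨(b :: vs) :: rest', ⟨b :: vs, rest', rfl, hlen, ⟨c, hc, hR⟩, ?_, hI2⟩, hk⟩
      intro m hm
      rcases Nat.lt_or_ge m (n + 1) with h9 | h9
      · exact hpos m (by omega)
      · have : m = n + 1 := by omega
        subst this
        exact h5

theorem InvQ_pos : ∀ (C : ℕ) (a : ℕ → ℕ → ℝ) (R : ℕ) (st : List (List ℕ)), InvQ C a R st →
    ∀ K m, K ≤ C → m + K ≤ R → 0 < (Matrix.of fun i l : Fin K => a (m + i) l).det := by
  intro C
  induction C with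
  | zero =>
    intro a R st _ K m hK _
    have : K = 0 := by omega
    subst this
    simp
  | succ C ih =>
    intro a R st hI K m hK hm
    rcases K with _ | K
    · simp
    rcases R with _ | R
    · omega
    obtain ⟨old, rest, _, _, _, hpos, hI'⟩ := hI
    have hne : ∀ i : Fin (K + 1), 0 < a (m + (i : ℕ)) 0 := fun i => hpos _ (by omega)
    rw [red a K (fun i : Fin (K + 1) => m + (i : ℕ)) (fun i => (hne i).ne')]
    apply mul_pos (Finset.prod_pos fun i _ => hne i)
    have h1 := ih (el a) R rest hI' K m (by omega) (by omega)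
    refine lt_of_lt_of_eq h1 ?_
    congr 1

theorem nextQ_spec (r n : ℕ) (hr : 1 ≤ r) (a : ℕ → ℝ) (b : ℕ → ℝ)
    (hz : ∀ j, n < j → a j = 0)
    (hab : ∀ j : ℕ, b (j + 1) = ((j : ℝ) + 2) * a (j + 1) + ((r : ℝ) * n - j) * a j) :
    ∀ (xs : List ℕ) (j p : ℕ) (k : List ℕ → Bool), (p : ℝ) = a j →
      RpQ xs (fun i => a (j + 1 + i)) → nextQ r n j p xs k = true →
      ∃ l, l.length = xs.length ∧ RpQ l (fun i => b (j + 1 + i)) ∧ k l = true := by
  intro xs
  induction xs with
  | nil =>
    intro j p k _ _ h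
    exact ⟨[], rfl, trivial, h⟩
  | cons x xs ih =>
    intro j p k hp hR h
    rw [nextQ, app] at h
    obtain ⟨_, h6⟩ := Pool.Agent.H48.TP.cond_true h
    have hx : (x : ℝ) = a (j + 1) := hR.1
    change nextQ r n (j + 1) x xs _ = true at h6
    obtain ⟨l, hl', hr', hk⟩ := ih (j + 1) x _ hx (RpQ.congr (fun i => by
      show a (j + 1 + (i + 1)) = a (j + 1 + 1 + i)
      congr 1; omega) hR.2) h6
    refine ⟨((j + 2) * x + (r * n - j) * p) :: l, by simp [hl'], ⟨?_,
      RpQ.congr (fun i => by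
      show b (j + 1 + 1 + i) = b (j + 1 + (i + 1))
      congr 1; omega) hr'⟩, hk⟩
    simp only [add_zero]
    rw [hab, ← hx]
    rcases Nat.lt_or_ge n j with h1 | h1
    · have h0 : a j = 0 := hz j h1
      have hp0 : p = 0 := by
        have : (p : ℝ) = 0 := by rw [hp, h0]
        exact_mod_cast this
      rw [h0, hp0]
      push_cast
      ring
    · have h2 : j ≤ r * n := h1.trans (Nat.le_mul_of_pos_left _ hr)
      rw [← hp]
      push_cast [Nat.cast_sub h2]
      ring

theorem runQ_spec (r C : ℕ) (hr : 1 ≤ r) (E : ℕ → ℕ → ℤ) (hE : IsE r E) :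
    ∀ (f i : ℕ) (row : List ℕ) (st : List (List ℕ)), row.length = C → 1 ≤ C →
      RpQ row (fun k => shE E i k) → InvQ C (shE E) i st →
      runQ r f (i + 1) row st = true →
      ∃ st', InvQ C (shE E) (i + f) st' := by
  intro f
  induction f with
  | zero =>
    intro i row st _ _ _ hI _
    exact ⟨st, hI⟩
  | succ f ih =>
    intro i row st hlen hC hR hI h
    rw [runQ] at h
    obtain ⟨st', hI', h1⟩ := stepQ_spec C (shE E) i 1 st row _
      (by rw [Nat.cast_one]; exact one_pos) hI hlen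
      ⟨1, one_pos, RpQ.congr (fun k => (one_mul _).symm) hR⟩ h
    rcases row with _ | ⟨p, xs⟩
    · simp at hlen; omega
    · have hlen' : xs.length + 1 = C := by simpa using hlen
      obtain ⟨l, hl2, hRl, h2⟩ := nextQ_spec r (i + 1) hr (fun k => shE E i k)
        (fun k => shE E (i + 1) k)
        (fun j hj => by
          have h3 : i < j := by omega
          unfold shE
          rw [hE.tri i j h3]
          simp)
        (fun j => by
          unfold shE
          rw [hE.hs]
          push_cast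
          ring) xs 0 p _ hR.1 (RpQ.congr (fun k => by
          show shE E i (k + 1) = shE E i (0 + 1 + k)
          congr 1; omega) hR.2) h1
      have h4 : RpQ (p :: l) (fun k => shE E (i + 1) k) := by
        refine ⟨?_, RpQ.congr (fun k => by
          show shE E (i + 1) (0 + 1 + k) = shE E (i + 1) (k + 1)
          congr 1; omega) hRl⟩
        have h6 : (p : ℝ) = shE E i 0 := hR.1
        show (p : ℝ) = shE E (i + 1) 0
        rw [h6]
        unfold shE
        rw [hE.hc (i + 1)]
      obtain ⟨st2, h5⟩ := ih (i + 1) (p :: l) st' (by simpa [hl2] using hlen') hC h4 hI' h2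
      exact ⟨st2, by rwa [show i + (f + 1) = i + 1 + f by omega]⟩

theorem RpQ_one {r : ℕ} {E : ℕ → ℕ → ℤ} (hE : IsE r E) (c : ℕ) :
    RpQ (1 :: List.replicate c 0) (fun k => shE E 0 k) := by
  refine ⟨?_, ?_⟩
  · show ((1 : ℕ) : ℝ) = shE E 0 0
    unfold shE
    rw [hE.hc, hE.h00]
    simp
  · have h1 : ∀ k, shE E 0 (k + 1) = 0 := by
      intro k
      unfold shE
      rw [hE.tri 0 (k + 1) (by omega)]
      simp
    have h2 : ∀ (c : ℕ) (w : ℕ → ℝ), (∀ k, w k = 0) → RpQ (List.replicate c 0) w := by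
      intro c
      induction c with
      | zero => intro w _; trivial
      | succ c ih =>
        intro w hw
        rw [List.replicate_succ]
        exact ⟨by rw [hw]; simp, ih _ fun k => hw _⟩
    exact h2 c _ h1

/-- positivity of the initial minors gives both clauses -/
theorem of_ini {r : ℕ} {E : ℕ → ℕ → ℤ} (hE : IsE r E) (C : ℕ)
    (hini : ∀ K n, K ≤ C → 0 < ini (shE E) K n) :
    (∀ m : ℕ, ∀ f g : Fin m → ℕ, StrictMono f → StrictMono g → (∀ j, g j < C) →
      0 ≤ Matrix.det (Matrix.of fun i j => E (f i) (g j))) ∧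
    (∀ n K : ℕ, K ≤ C → 0 < Matrix.det (Matrix.of fun i j : Fin K => E (n + i + 1) j)) := by
  refine ⟨redC hE C hini, fun n K hK => ?_⟩
  have h1 := hini K n hK
  rw [ini_cast] at h1
  have h2 : (Matrix.of fun i j : Fin K => E (n + i + 1) j) =
      Matrix.of fun i j : Fin K => E (n + 1 + i) j := by
    ext i j
    simp only [Matrix.of_apply]
    congr 1
    omega
  rw [h2]
  exact_mod_cast h1

/-- **First columns, one `r`.** -/
theorem first_columnsQ (r C R n1 : ℕ) (hr : 1 ≤ r) (hC : 1 ≤ C) (hR : n1 + C ≤ R + 1)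
    (hrun : runQ r R 1 (1 :: List.replicate (C - 1) 0) [] = true)
    (hcond : ∀ K, 1 ≤ K → K ≤ C → 2 * K * (K + 1) * (n1 + K * K) * (K - 1) ^ n1 ≤ K ^ n1)
    (E : ℕ → ℕ → ℤ) (hE : IsE r E) :
    (∀ m : ℕ, ∀ f g : Fin m → ℕ, StrictMono f → StrictMono g → (∀ j, g j < C) →
      0 ≤ Matrix.det (Matrix.of fun i j => E (f i) (g j))) ∧
    (∀ n K : ℕ, K ≤ C → 0 < Matrix.det (Matrix.of fun i j : Fin K => E (n + i + 1) j)) := by
  apply of_ini hE
  intro K n hK
  rcases Nat.eq_zero_or_pos K with h0 | h0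
  · subst h0
    simp [ini]
  rcases Nat.lt_or_ge (n + 1) n1 with h' | h'
  · obtain ⟨st', hI⟩ := runQ_spec r C hr E hE R 0 _ [] (by simp; omega) hC
      (RpQ_one hE (C - 1)) (InvQ_nil C _) hrun
    rw [zero_add] at hI
    exact InvQ_pos C (shE E) R st' hI K n hK (by omega)
  · rw [ini_cast]
    have c1 := cond_of_nat 1 K K n1 h0 (by
      have := hcond K h0 hK
      rw [mul_one]
      exact this)
    rw [Nat.cast_one, mul_one] at c1
    have key := deep_condU r K K n1 hr h0 c1 E hE le_rfl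
      (fun i : Fin K => n + 1 + (i : ℕ)) (fun j : Fin K => (j : ℕ))
      (fun i j hij => by
        have : (i : ℕ) < j := hij
        show n + 1 + (i : ℕ) < n + 1 + (j : ℕ)
        omega)
      (fun i j hij => hij) (fun i => by show n1 ≤ n + 1 + (i : ℕ); omega) (fun j => j.2)
    exact_mod_cast key

end Pool.Agent.H6.TPU
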