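import Pool.Agent.H6.TPU.SndQ
import Pool.Agent.H6.TPU.SegP

/-!
# Soundness of the elimination on a segment of rows
-/

set_option autoImplicit false

namespace Pool.Agent.H6.TPU

open Finset Pool.Agent.H48.TP Pool.Agent.H37.TPC

/-- one step of the triangle on lists -/
theorem next_row {β lim : ℕ} (hl : lim < β) (X M s : ℕ) (hG : Good β lim X M)
    (E : ℕ → ℕ → ℤ) (hE : IsE (s + 1) E) (i : ℕ) (p : ℕ) (xs : List ℕ) (k : List ℕ → Bool)
    (hB : (xs.length + 2 + 2 * (i + 1)) * lim < β)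
    (hR : RpP β lim s (p :: xs) (fun k => shE E i k))
    (h : nextP β X M (i + 1) 0 p xs k = true) :
    ∃ l, l.length = xs.length ∧ RpP β lim s (p :: l) (fun k => shE E (i + 1) k) ∧ k l = true := by
  obtain ⟨l, hl2, hRl, h2⟩ := nextP_spec (s := (s : ℝ)) hl X M (i + 1) hG (fun k => shE E i k)
    (fun k => shE E (i + 1) k)
    (fun j hj => by
      have h3 : i < j := by omega
      unfold shE
      rw [hE.tri i j h3]
      simp)
    (fun j => by
      unfold shE
      rw [hE.hs]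
      push_cast
      ring) xs 0 p _ (by rwa [zero_add]) hR.1 hR.2.1 (RpP.congr (fun k => by
      show shE E i (k + 1) = shE E i (0 + 1 + k)
      congr 1; omega) hR.2.2) h
  refine ⟨l, hl2, ⟨?_, hR.2.1, RpP.congr (fun k => by
    show shE E (i + 1) (0 + 1 + k) = shE E (i + 1) (k + 1)
    congr 1; omega) hRl⟩, h2⟩
  have h6 : VV β s p = shE E i 0 := hR.1
  show VV β s p = shE E (i + 1) 0
  rw [h6]
  unfold shE
  rw [hE.hc (i + 1)]

theorem goP_spec {β lim : ℕ} (hl : lim < β) (X M s C : ℕ) (hG : Good β lim X M)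
    (E : ℕ → ℕ → ℤ) (hE : IsE (s + 1) E) :
    ∀ (f i : ℕ) (row : List ℕ) (k : List ℕ → Bool), row.length = C → 1 ≤ C →
      (C + 2 + 2 * (i + f)) * lim < β → RpP β lim s row (fun k => shE E i k) →
      goP β X M f (i + 1) row k = true →
      ∃ row', row'.length = C ∧ RpP β lim s row' (fun k => shE E (i + f) k) ∧ k row' = true := by
  intro f
  induction f with
  | zero =>
    intro i row k hlen _ _ hR h
    exact ⟨row, hlen, hR, h⟩
  | succ f ih =>
    intro i row k hlen hC hB hR h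
    rcases row with _ | ⟨p, xs⟩
    · simp at hlen; omega
    · rw [goP] at h
      have hlen' : xs.length + 1 = C := by simpa using hlen
      obtain ⟨l, hl2, hR2, h2⟩ := next_row hl X M s hG E hE i p xs _ (by
        refine lt_of_le_of_lt ?_ hB
        apply Nat.mul_le_mul_right
        omega) hR h
      obtain ⟨row', h3, h4, h5⟩ := ih (i + 1) (p :: l) k (by simpa [hl2] using hlen') hC (by
        refine lt_of_le_of_lt ?_ hB
        apply Nat.mul_le_mul_right
        omega) hR2 h2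
      exact ⟨row', h3, by rwa [show i + (f + 1) = i + 1 + f by omega], h5⟩

theorem runP_specO {β lim : ℕ} (hβ : 2 * (lim * lim) < β) (hβ1 : 1 < β) (hl : lim < β)
    (h1l : 1 ≤ lim) (X M s C s0 : ℕ) (hG : Good β lim X M) (E : ℕ → ℕ → ℤ)
    (hE : IsE (s + 1) E) :
    ∀ (f i : ℕ) (row : List ℕ) (st : List (List ℕ)), row.length = C → 1 ≤ C →
      (C + 2 + 2 * (s0 + i + f)) * lim < β →
      RpP β lim s row (fun k => shE E (s0 + i) k) →
      InvP β lim s C (fun n => shE E (s0 + n)) i st →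
      runP β X M f (s0 + i + 1) row st = true →
      ∃ st', InvP β lim s C (fun n => shE E (s0 + n)) (i + f) st' := by
  intro f
  induction f with
  | zero =>
    intro i row st _ _ _ _ hI _
    exact ⟨st, hI⟩
  | succ f ih =>
    intro i row st hlen hC hB hR hI h
    rw [runP] at h
    have hS1 : SS β 1 ≤ lim := (SS_le β 1).trans h1l
    obtain ⟨st', hI', h1⟩ := stepP_spec hβ hβ1 (Nat.cast_nonneg s) X M hG C
      (fun n => shE E (s0 + n)) i 1 st row _ hS1
      (by rw [VV_one β hβ1]; exact one_pos) hI hlen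
      ⟨1, one_pos, RpP.congr (fun k => (one_mul _).symm) hR⟩ h
    rcases row with _ | ⟨p, xs⟩
    · simp at hlen; omega
    · have hlen' : xs.length + 1 = C := by simpa using hlen
      obtain ⟨l, hl2, hR2, h2⟩ := next_row hl X M s hG E hE (s0 + i) p xs _ (by
        refine lt_of_le_of_lt ?_ hB
        apply Nat.mul_le_mul_right
        omega) hR h1
      exact (ih (i + 1) (p :: l) st' (by simpa [hl2] using hlen') hC (by
        refine lt_of_le_of_lt ?_ hB
        apply Nat.mul_le_mul_right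
        omega) hR2 hI' h2).imp fun st2 h5 => by rwa [show i + (f + 1) = i + 1 + f by omega]

/-- **A segment.** The elimination on the rows `s0, …, s0 + f - 1` gives the initial minors that
use only these rows, for all `r`. -/
theorem seg_ini (B h D C s0 f : ℕ) (hC : 1 ≤ C) (hD : 1 ≤ D)
    (hB : 2 * h + 1 ≤ B) (hDB : 2 * (D * D) < 2 ^ (B - 2 * h))
    (hbig : (C + 2 + 2 * (s0 + f)) * D < 2 ^ (B - h))
    (hrun : segP B h D C s0 f = true)
    (r : ℕ) (hr : 1 ≤ r) (E : ℕ → ℕ → ℤ) (hE : IsE r E) (K n : ℕ) (hK : K ≤ C) (hn : s0 ≤ n)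
    (hn2 : n + K ≤ s0 + f) : 0 < ini (shE E) K n := by
  obtain ⟨s, rfl⟩ : ∃ s, r = s + 1 := ⟨r - 1, by omega⟩
  have hpow : 1 ≤ 2 ^ h := Nat.one_le_two_pow
  have h1l : 1 ≤ D * 2 ^ h := Nat.mul_pos hD hpow
  have hβe : 2 ^ B = 2 ^ (B - 2 * h) * (2 ^ h * 2 ^ h) := by
    rw [← pow_add, ← pow_add]; congr 1; omega
  have hβ : 2 * ((D * 2 ^ h) * (D * 2 ^ h)) < 2 ^ B := by
    rw [hβe]
    calc 2 * ((D * 2 ^ h) * (D * 2 ^ h)) = 2 * (D * D) * (2 ^ h * 2 ^ h) := by ring
      _ < 2 ^ (B - 2 * h) * (2 ^ h * 2 ^ h) :=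
        Nat.mul_lt_mul_of_pos_right hDB (Nat.mul_pos hpow hpow)
  have hsq : 1 ≤ (D * 2 ^ h) * (D * 2 ^ h) := Nat.mul_pos h1l h1l
  have hβ1 : 1 < 2 ^ B := by omega
  have hbig' : (C + 2 + 2 * (s0 + f)) * (D * 2 ^ h) < 2 ^ B := by
    have e : 2 ^ B = 2 ^ (B - h) * 2 ^ h := by rw [← pow_add]; congr 1; omega
    rw [e, ← mul_assoc]
    exact Nat.mul_lt_mul_of_pos_right hbig hpow
  have hl : D * 2 ^ h < 2 ^ B := by
    refine lt_of_le_of_lt ?_ hbig'
    exact Nat.le_mul_of_pos_left _ (by omega)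
  have hG : Good (2 ^ B) (D * 2 ^ h) (2 ^ (B * D) - 1) (maskK (2 ^ B - 2 ^ h) (2 ^ B) D) := by
    intro w h1 h2
    refine mask_spec B h (by omega) (by omega) D w ?_ h2
    have := Nat.two_pow_pos (B * D)
    omega
  unfold segP at hrun
  simp only [force_eq] at hrun
  obtain ⟨row', h3, h4, h5⟩ := goP_spec hl _ _ s C hG E hE s0 0 _ _ (by simp; omega) hC
    (by
      refine lt_of_le_of_lt ?_ hbig'
      apply Nat.mul_le_mul_right
      omega) (RpP_one hE s hβ1 h1l (C - 1)) hrun
  rw [zero_add] at h4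
  obtain ⟨st', hI⟩ := runP_specO hβ hβ1 hl h1l _ _ s C s0 hG E hE f 0 row' [] h3 hC
    (by simpa using hbig') (by simpa using h4) (InvP_nil C _) (by simpa using h5)
  rw [zero_add] at hI
  have h6 := InvP_pos C (fun n => shE E (s0 + n)) f st' hI K (n - s0) hK (by omega)
  have e : (Matrix.of fun i l : Fin K => (fun n => shE E (s0 + n)) (n - s0 + (i : ℕ)) (l : ℕ)) =
      Matrix.of fun i l : Fin K => shE E (n + i) l := by
    ext i l
    simp only [Matrix.of_apply]
    congr 1
    omega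
  rw [e] at h6
  exact h6

/-- **First columns, assembled.** The initial minors that start before row `n1` and the numerical
condition give both clauses. -/
theorem first_of_ini (C n1 r : ℕ) (hr : 1 ≤ r) (E : ℕ → ℕ → ℤ) (hE : IsE r E)
    (hcond : ∀ K, 1 ≤ K → K ≤ C → 2 * K * (K + 1) * (n1 + K * K) * (K - 1) ^ n1 ≤ K ^ n1)
    (h0 : ∀ K n, K ≤ C → n + 1 < n1 → 0 < ini (shE E) K n) :
    (∀ m : ℕ, ∀ f g : Fin m → ℕ, StrictMono f → StrictMono g → (∀ j, g j < C) →
      0 ≤ Matrix.det (Matrix.of fun i j => E (f i) (g j))) ∧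
    (∀ n K : ℕ, K ≤ C → 0 < Matrix.det (Matrix.of fun i j : Fin K => E (n + i + 1) j)) := by
  apply of_ini hE
  intro K n hK
  rcases Nat.eq_zero_or_pos K with hK0 | hK0
  · subst hK0
    simp [ini]
  rcases Nat.lt_or_ge (n + 1) n1 with h' | h'
  · exact h0 K n hK h'
  · rw [ini_cast]
    have c1 := cond_of_nat 1 K K n1 hK0 (by
      have := hcond K hK0 hK
      rw [mul_one]
      exact this)
    rw [Nat.cast_one, mul_one] at c1
    have key := deep_condU r K K n1 hr hK0 c1 E hE le_rfl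
      (fun i : Fin K => n + 1 + (i : ℕ)) (fun j : Fin K => (j : ℕ))
      (fun i j hij => by
        have : (i : ℕ) < j := hij
        show n + 1 + (i : ℕ) < n + 1 + (j : ℕ)
        omega)
      (fun i j hij => hij) (fun i => by show n1 ≤ n + 1 + (i : ℕ); omega) (fun j => j.2)
    exact_mod_cast key

end Pool.Agent.H6.TPU
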