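import Pool.Agent.H6.TPU.SndS
import Pool.Agent.H6.TPU.SegQ

/-!
# Soundness of the elimination with exact division on a segment of rows
-/

set_option autoImplicit false

namespace Pool.Agent.H6.TPU

open Finset Pool.Agent.H48.TP Pool.Agent.H37.TPC

/-- one step of the triangle on lists -/
theorem next_rowQ (r : ℕ) (hr : 1 ≤ r) (E : ℕ → ℕ → ℤ) (hE : IsE r E) (i : ℕ) (p : ℕ)
    (xs : List ℕ) (k : List ℕ → Bool)
    (hR : RpQ (p :: xs) (fun k => shE E i k))
    (h : nextQ r (i + 1) 0 p xs k = true) :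
    ∃ l, l.length = xs.length ∧ RpQ (p :: l) (fun k => shE E (i + 1) k) ∧ k l = true := by
  obtain ⟨l, hl2, hRl, h2⟩ := nextQ_spec r (i + 1) hr (fun k => shE E i k)
    (fun k => shE E (i + 1) k)
    (fun j hj => by
      have h3 : i < j := by omega
      unfold shE
      rw [hE.tri i j h3]
      simp)
    (fun j => by
      unfold shE
      rw [hE.hs]
      push_cast
      ring) xs 0 p _ hR.1 (RpQ.congr (fun k => by
      show shE E i (k + 1) = shE E i (0 + 1 + k)
      congr 1; omega) hR.2) h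
  refine ⟨l, hl2, ⟨?_, RpQ.congr (fun k => by
    show shE E (i + 1) (0 + 1 + k) = shE E (i + 1) (k + 1)
    congr 1; omega) hRl⟩, h2⟩
  have h6 : (p : ℝ) = shE E i 0 := hR.1
  show (p : ℝ) = shE E (i + 1) 0
  rw [h6]
  unfold shE
  rw [hE.hc (i + 1)]

theorem goQ_spec (r C : ℕ) (hr : 1 ≤ r) (E : ℕ → ℕ → ℤ) (hE : IsE r E) :
    ∀ (f i : ℕ) (row : List ℕ) (k : List ℕ → Bool), row.length = C → 1 ≤ C →
      RpQ row (fun k => shE E i k) → goQ r f (i + 1) row k = true →
      ∃ row', row'.length = C ∧ RpQ row' (fun k => shE E (i + f) k) ∧ k row' = true := by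
  intro f
  induction f with
  | zero =>
    intro i row k hlen _ hR h
    exact ⟨row, hlen, hR, h⟩
  | succ f ih =>
    intro i row k hlen hC hR h
    rcases row with _ | ⟨p, xs⟩
    · simp at hlen; omega
    · rw [goQ] at h
      have hlen' : xs.length + 1 = C := by simpa using hlen
      obtain ⟨l, hl2, hR2, h2⟩ := next_rowQ r hr E hE i p xs _ hR h
      obtain ⟨row', h3, h4, h5⟩ := ih (i + 1) (p :: l) k (by simpa [hl2] using hlen') hC hR2 h2
      exact ⟨row', h3, by rwa [show i + (f + 1) = i + 1 + f by omega], h5⟩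

theorem runQ_specO (r C s0 : ℕ) (hr : 1 ≤ r) (E : ℕ → ℕ → ℤ) (hE : IsE r E) :
    ∀ (f i : ℕ) (row : List ℕ) (st : List (List ℕ)), row.length = C → 1 ≤ C →
      RpQ row (fun k => shE E (s0 + i) k) → InvQ C (fun n => shE E (s0 + n)) i st →
      runQ r f (s0 + i + 1) row st = true →
      ∃ st', InvQ C (fun n => shE E (s0 + n)) (i + f) st' := by
  intro f
  induction f with
  | zero =>
    intro i row st _ _ _ hI _
    exact ⟨st, hI⟩
  | succ f ih =>
    intro i row st hlen hC hR hI h
    rw [runQ] at h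
    obtain ⟨st', hI', h1⟩ := stepQ_spec C (fun n => shE E (s0 + n)) i 1 st row _
      (by rw [Nat.cast_one]; exact one_pos) hI hlen
      ⟨1, one_pos, RpQ.congr (fun k => (one_mul _).symm) hR⟩ h
    rcases row with _ | ⟨p, xs⟩
    · simp at hlen; omega
    · have hlen' : xs.length + 1 = C := by simpa using hlen
      obtain ⟨l, hl2, hR2, h2⟩ := next_rowQ r hr E hE (s0 + i) p xs _ hR h1
      exact (ih (i + 1) (p :: l) st' (by simpa [hl2] using hlen') hC hR2 hI' h2).imp
        fun st2 h5 => by rwa [show i + (f + 1) = i + 1 + f by omega]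

/-- **A segment.** The elimination on the rows `s0, …, s0 + f - 1` gives the initial minors that
use only these rows, for one `r`. -/
theorem segQ_ini (r C s0 f : ℕ) (hr : 1 ≤ r) (hC : 1 ≤ C) (hrun : segQ r C s0 f = true)
    (E : ℕ → ℕ → ℤ) (hE : IsE r E) (K n : ℕ) (hK : K ≤ C) (hn : s0 ≤ n)
    (hn2 : n + K ≤ s0 + f) : 0 < ini (shE E) K n := by
  unfold segQ at hrun
  obtain ⟨row', h3, h4, h5⟩ := goQ_spec r C hr E hE s0 0 _ _ (by simp; omega) hC
    (RpQ_one hE (C - 1)) hrun
  rw [zero_add] at h4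
  obtain ⟨st', hI⟩ := runQ_specO r C s0 hr E hE f 0 row' [] h3 hC
    (by simpa using h4) (InvQ_nil C _) (by simpa using h5)
  rw [zero_add] at hI
  have h6 := InvQ_pos C (fun n => shE E (s0 + n)) f st' hI K (n - s0) hK (by omega)
  have e : (Matrix.of fun i l : Fin K => (fun n => shE E (s0 + n)) (n - s0 + (i : ℕ)) (l : ℕ)) =
      Matrix.of fun i l : Fin K => shE E (n + i) l := by
    ext i l
    simp only [Matrix.of_apply]
    congr 1
    omega
  rw [e] at h6
  exact h6

end Pool.Agent.H6.TPU
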